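import Mathlib

set_option autoImplicit false

/-!
# Ideals of bounded norm: counting basics
-/

open Finset Filter Topology NumberField
open scoped Classical

namespace Pool.Agent.Helper3.CF

noncomputable section

variable (K : Type*) [Field K] [NumberField K]

/-- nonzero ideals of norm at most `n` -/
def Th (n : ℕ) : Finset (Ideal (𝓞 K)) :=
  (Ideal.finite_setOfPred_absNorm_le (S := 𝓞 K) n).toFinset.filter (fun I => I ≠ ⊥)

variable {K}

theorem mem_Th {n : ℕ} {I : Ideal (𝓞 K)} : I ∈ Th K n ↔ I ≠ ⊥ ∧ Ideal.absNorm I ≤ n := by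
  simp [Th, and_comm]

theorem norm_pos {I : Ideal (𝓞 K)} (h : I ≠ ⊥) : 1 ≤ Ideal.absNorm I :=
  Nat.one_le_iff_ne_zero.2 (fun h0 => h (Ideal.absNorm_eq_zero_iff.1 h0))

theorem prime_norm {p : Ideal (𝓞 K)} (hp : Prime p) : 2 ≤ Ideal.absNorm p := by
  have h1 : 1 ≤ Ideal.absNorm p := norm_pos hp.ne_zero
  have h2 : Ideal.absNorm p ≠ 1 := by
    intro h
    rw [Ideal.absNorm_eq_one_iff] at h
    exact hp.not_isUnit (by rw [h, ← Ideal.one_eq_top]; exact isUnit_one)
  omega

theorem Th_mono {m n : ℕ} (h : m ≤ n) : Th K m ⊆ Th K n := by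
  intro I hI
  rw [mem_Th] at hI ⊢
  exact ⟨hI.1, hI.2.trans h⟩

theorem Th_zero : Th K 0 = ∅ := by
  ext I
  rw [mem_Th]
  simp only [Finset.notMem_empty, iff_false, not_and, not_le]
  intro h
  exact norm_pos h

variable (K) in
/-- the counting function -/
def J (n : ℕ) : ℕ := (Th K n).card

theorem J_mono {m n : ℕ} (h : m ≤ n) : J K m ≤ J K n := Finset.card_le_card (Th_mono h)

theorem J_zero : J K 0 = 0 := by rw [J, Th_zero]; rfl

theorem one_le_J {n : ℕ} (h : 1 ≤ n) : 1 ≤ J K n := by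
  have : (⊤ : Ideal (𝓞 K)) ∈ Th K n := by
    rw [mem_Th]
    refine ⟨?_, ?_⟩
    · exact top_ne_bot
    · rw [Ideal.absNorm_top]; exact h
  exact Finset.card_pos.2 ⟨_, this⟩

variable (K) in
/-- the limit density -/
def kap : ℝ := dedekindZeta_residue K

theorem kap_pos : 0 < kap K := dedekindZeta_residue_pos K

theorem J_tendsto : Tendsto (fun n : ℕ => (J K n : ℝ) / n) atTop (𝓝 (kap K)) := by
  have h := (NumberField.Ideal.tendsto_norm_le_div_atTop₀ K).comp tendsto_natCast_atTop_atTop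
  refine (h.congr fun n => ?_)
  simp only [Function.comp_apply, Nat.cast_le]
  congr 2
  have e : {I : nonZeroDivisors (Ideal (𝓞 K)) // Ideal.absNorm (I : Ideal (𝓞 K)) ≤ n} ≃
      {I : Ideal (𝓞 K) // I ∈ Th K n} :=
    { toFun := fun x => ⟨x.1.1, mem_Th.2 ⟨nonZeroDivisors.ne_zero x.1.2, x.2⟩⟩
      invFun := fun x => ⟨⟨x.1, mem_nonZeroDivisors_of_ne_zero (mem_Th.1 x.2).1⟩, (mem_Th.1 x.2).2⟩
      left_inv := fun x => rfl
      right_inv := fun x => rfl }
  rw [Nat.card_congr e, Nat.card_eq_fintype_card, Fintype.card_coe, J]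

/-- two-sided linear bounds -/
theorem J_bounds : ∃ c C : ℝ, 0 < c ∧ 1 ≤ C ∧ (∀ n : ℕ, (J K n : ℝ) ≤ C * n) ∧
    (∀ n : ℕ, c * n ≤ J K n) := by
  have h := J_tendsto (K := K)
  have hk := kap_pos (K := K)
  have h1 : ∀ᶠ n : ℕ in atTop, kap K / 2 < (J K n : ℝ) / n :=
    h.eventually (lt_mem_nhds (by linarith))
  have h2 : ∀ᶠ n : ℕ in atTop, (J K n : ℝ) / n < kap K + 1 :=
    h.eventually (gt_mem_nhds (by linarith))
  obtain ⟨N, hN⟩ := eventually_atTop.1 (h1.and (h2.and (eventually_ge_atTop 1)))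
  refine ⟨min (kap K / 2) (1 / (N + 1)), kap K + 1 + J K N, ?_, ?_, ?_, ?_⟩
  · exact lt_min (by linarith) (by positivity)
  · have : (0:ℝ) ≤ J K N := Nat.cast_nonneg _
    linarith
  · intro n
    rcases Nat.eq_zero_or_pos n with rfl | hn
    · rw [J_zero]; simp
    have hn' : (1:ℝ) ≤ n := by exact_mod_cast hn
    by_cases hnN : N ≤ n
    · have h3 := (hN n hnN).2.1
      rw [div_lt_iff₀ (by linarith)] at h3
      have : (0:ℝ) ≤ J K N * n := by positivity
      nlinarith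
    · have h4 : (J K n : ℝ) ≤ J K N := by exact_mod_cast J_mono (by omega)
      have h5 : (J K N : ℝ) ≤ J K N * n := le_mul_of_one_le_right (Nat.cast_nonneg _) hn'
      have h6 : 0 ≤ (kap K + 1) * n := by positivity
      nlinarith
  · intro n
    rcases Nat.eq_zero_or_pos n with rfl | hn
    · simp
    have hn' : (1:ℝ) ≤ n := by exact_mod_cast hn
    by_cases hnN : N ≤ n
    · have h3 := (hN n hnN).1
      rw [lt_div_iff₀ (by linarith)] at h3
      have : min (kap K / 2) (1 / (N + 1)) * (n:ℝ) ≤ kap K / 2 * n :=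
        mul_le_mul_of_nonneg_right (min_le_left _ _) (by linarith)
      linarith
    · have h4 : (1:ℝ) ≤ J K n := by exact_mod_cast one_le_J hn
      have h5 : min (kap K / 2) (1 / ((N:ℝ) + 1)) * (n:ℝ) ≤ 1 / ((N:ℝ) + 1) * n :=
        mul_le_mul_of_nonneg_right (min_le_right _ _) (by linarith)
      have h6 : (n:ℝ) ≤ N + 1 := by exact_mod_cast (by omega : n ≤ N + 1)
      have h7 : 1 / ((N:ℝ) + 1) * n ≤ 1 := by
        rw [one_div, inv_mul_le_iff₀ (by positivity)]; linarith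
      linarith

/-! ### divisibility by primes -/

theorem prime_dvd_prime {p q : Ideal (𝓞 K)} (hp : Prime p) (hq : Prime q) (h : p ∣ q) : p = q :=
  associated_iff_eq.1 ((hp.dvd_prime_iff_associated hq).1 h)

theorem filter_dvd_eq {p : Ideal (𝓞 K)} (hp : Prime p) (n : ℕ) :
    (Th K n).filter (fun I => p ∣ I) = (Th K (n / Ideal.absNorm p)).image (fun I => p * I) := by
  ext I
  simp only [Finset.mem_filter, Finset.mem_image, mem_Th]
  have hp1 : 0 < Ideal.absNorm p := by have := prime_norm hp; omega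
  constructor
  · rintro ⟨⟨h1, h2⟩, I', rfl⟩
    refine ⟨I', ⟨?_, ?_⟩, rfl⟩
    · rintro rfl; exact h1 (by simp)
    · rw [Nat.le_div_iff_mul_le hp1, mul_comm, ← map_mul]; exact h2
  · rintro ⟨I', ⟨h1, h2⟩, rfl⟩
    refine ⟨⟨mul_ne_zero hp.ne_zero h1, ?_⟩, dvd_mul_right _ _⟩
    rw [Nat.le_div_iff_mul_le hp1, mul_comm, ← map_mul] at h2
    exact h2

theorem mul_inj_on {p : Ideal (𝓞 K)} (hp : Prime p) : Function.Injective (fun I => p * I) :=
  mul_right_injective₀ hp.ne_zero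

theorem sum_dvd {p : Ideal (𝓞 K)} (hp : Prime p) (n : ℕ) (φ : Ideal (𝓞 K) → ℝ) :
    ∑ I ∈ (Th K n).filter (fun I => p ∣ I), φ I = ∑ I ∈ Th K (n / Ideal.absNorm p), φ (p * I) := by
  rw [filter_dvd_eq hp, Finset.sum_image (fun a _ b _ h => mul_inj_on hp h)]

theorem card_dvd {p : Ideal (𝓞 K)} (hp : Prime p) (n : ℕ) (Q : Ideal (𝓞 K) → Prop) :
    ((Th K n).filter (fun I => p ∣ I ∧ Q I)).card
      = ((Th K (n / Ideal.absNorm p)).filter (fun I => Q (p * I))).card := by
  rw [← Finset.filter_filter, filter_dvd_eq hp, Finset.filter_image,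
    Finset.card_image_of_injective _ (mul_inj_on hp)]

theorem dvd_mul_prime {p q I : Ideal (𝓞 K)} (hp : Prime p) (hq : Prime q) (hne : p ≠ q) :
    p ∣ q * I ↔ p ∣ I := by
  constructor
  · intro h
    rcases hp.dvd_or_dvd h with h1 | h1
    · exact absurd (prime_dvd_prime hp hq h1) hne
    · exact h1
  · intro h; exact h.mul_left q

end

end Pool.Agent.Helper3.CF
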