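import Pool.Agent.Helper3.CF.Main

set_option autoImplicit false

/-!
# Exact sizes of the juntas, and the case of three primes of norm two
-/

open Finset Filter Topology NumberField
open scoped Classical

namespace Pool.Agent.Helper3.CF

noncomputable section

set_option linter.unusedSectionVars false

variable {K : Type*} [Field K] [NumberField K]

theorem cBS_empty_card {B : Finset (Ideal (𝓞 K))} (hB : ∀ p ∈ B, Prime p ∧ Ideal.absNorm p = 2)
    (n : ℕ) : cBS B ∅ n = J K (n / 2 ^ B.card) := by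
  induction B using Finset.induction_on generalizing n with
  | empty => simp [cBS_nil]
  | insert q B hq ih =>
    have hqp := hB q (mem_insert_self _ _)
    have hBp := fun p hp => hB p (mem_insert_of_mem (s := B) (a := p) hp)
    rw [cBS_insertB (fun p hp => (hBp p hp).1) hqp.1 hq, hqp.2, ih hBp, Finset.card_insert_of_notMem hq,
      Nat.div_div_eq_div_mul, pow_succ, mul_comm]

theorem binom_step (s : ℕ) (f : ℕ → ℤ) :
    ∑ j ∈ range (s + 2), (-1) ^ j * ((s + 1).choose j : ℤ) * f j
      = ∑ j ∈ range (s + 1), (-1) ^ j * (s.choose j : ℤ) * f j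
        - ∑ j ∈ range (s + 1), (-1) ^ j * (s.choose j : ℤ) * f (j + 1) := by
  rw [Finset.sum_range_succ']
  have h1 : ∀ j ∈ range (s + 1), (-1) ^ (j + 1) * ((s + 1).choose (j + 1) : ℤ) * f (j + 1)
      = (-1) ^ (j + 1) * (s.choose (j + 1) : ℤ) * f (j + 1)
        - (-1) ^ j * (s.choose j : ℤ) * f (j + 1) := by
    intro j _
    rw [Nat.choose_succ_succ]
    push_cast
    ring
  rw [Finset.sum_congr rfl h1, Finset.sum_sub_distrib]
  have h2 : ∑ j ∈ range (s + 1), (-1) ^ (j + 1) * (s.choose (j + 1) : ℤ) * f (j + 1)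
      + (-1) ^ 0 * ((s + 1).choose 0 : ℤ) * f 0
      = ∑ j ∈ range (s + 1), (-1) ^ j * (s.choose j : ℤ) * f j := by
    have h3 := Finset.sum_range_succ' (fun j => (-1) ^ j * (s.choose j : ℤ) * f j) (s + 1)
    rw [Finset.sum_range_succ] at h3
    rw [Nat.choose_succ_self] at h3
    simp only [Nat.cast_zero, mul_zero, zero_mul, add_zero] at h3
    rw [h3]
    simp
  linarith

theorem cBS_formula (S : Finset (Ideal (𝓞 K))) : ∀ (B : Finset (Ideal (𝓞 K))),
    (∀ p ∈ B, Prime p ∧ Ideal.absNorm p = 2) → (∀ p ∈ S, Prime p ∧ Ideal.absNorm p = 2) →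
    Disjoint B S → ∀ n : ℕ, (cBS B S n : ℤ)
      = ∑ j ∈ range (S.card + 1), (-1) ^ j * (S.card.choose j : ℤ) * J K (n / 2 ^ (B.card + j)) := by
  induction S using Finset.induction_on with
  | empty =>
    intro B hB _ _ n
    rw [cBS_empty_card hB]
    simp
  | insert q S hq ih =>
    intro B hB hS hd n
    have hqp := hS q (mem_insert_self _ _)
    have hSp := fun p hp => hS p (mem_insert_of_mem (s := S) (a := p) hp)
    have hqB : q ∉ B := fun h => (Finset.disjoint_left.1 hd) h (mem_insert_self _ _)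
    have hd1 : Disjoint B S := by
      rw [Finset.disjoint_insert_right] at hd; exact hd.2
    have hd2 : Disjoint (insert q B) S := by
      rw [Finset.disjoint_insert_left]; exact ⟨hq, hd1⟩
    have h1 := ih B hB hSp hd1 n
    have h2 := ih (insert q B) (fun p hp => by
      rcases Finset.mem_insert.1 hp with rfl | hp
      · exact hqp
      · exact hB p hp) hSp hd2 n
    have h3 : (cBS B S n : ℤ) = cBS B (insert q S) n + cBS (insert q B) S n := by
      exact_mod_cast cBS_insertS B S q n
    have h4 : (cBS B (insert q S) n : ℤ) = cBS B S n - cBS (insert q B) S n := by linarith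
    rw [h4, h1, h2, Finset.card_insert_of_notMem hq, Finset.card_insert_of_notMem hqB,
      binom_step S.card (fun j => (J K (n / 2 ^ (B.card + j)) : ℤ))]
    congr 1
    refine Finset.sum_congr rfl fun j _ => ?_
    rw [show B.card + 1 + j = B.card + (j + 1) by ring]

theorem count_type_formula {E T : Finset (Ideal (𝓞 K))} (hE : IsE2 E) (hT : T ⊆ E) (n : ℕ) :
    (((Th K n).filter (fun I => tr E I = T)).card : ℤ)
      = ∑ j ∈ range (E.card - T.card + 1),
        (-1) ^ j * ((E.card - T.card).choose j : ℤ) * J K (n / 2 ^ (T.card + j)) := by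
  have h1 := cBS_formula (E \ T) T (fun p hp => (hE p).1 (hT hp))
    (fun p hp => (hE p).1 (Finset.mem_sdiff.1 hp).1) Finset.disjoint_sdiff n
  rw [Finset.card_sdiff_of_subset hT] at h1
  rw [← h1]
  congr 2
  ext I
  simp only [Finset.mem_filter]
  exact and_congr_right fun _ => tr_eq_iff hT

theorem fam_card_formula {E : Finset (Ideal (𝓞 K))} (hE : IsE2 E)
    {H : Finset (Finset (Ideal (𝓞 K)))} (hH : ∀ S ∈ H, S ⊆ E) (n : ℕ) :
    ((fam E H n).card : ℤ) = ∑ T ∈ H, ∑ j ∈ range (E.card - T.card + 1),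
        (-1) ^ j * ((E.card - T.card).choose j : ℤ) * J K (n / 2 ^ (T.card + j)) := by
  have h3 : (fam E H n).card = ∑ T ∈ H, ((fam E H n).filter (fun I => tr E I = T)).card :=
    Finset.card_eq_sum_card_fiberwise (fun z hz => (Finset.mem_filter.1 hz).2)
  rw [h3, Nat.cast_sum]
  refine Finset.sum_congr rfl fun T hT => ?_
  rw [← count_type_formula hE (hH T hT)]
  congr 2
  ext I
  simp only [fam, Finset.mem_filter]
  constructor
  · rintro ⟨⟨h4, _⟩, h5⟩; exact ⟨h4, h5⟩
  · rintro ⟨h4, h5⟩; exact ⟨⟨h4, h5 ▸ hT⟩, h5⟩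

/-! ### three primes of norm two -/

theorem star_card {E : Finset (Ideal (𝓞 K))} (hE : IsE2 E) {e : Ideal (𝓞 K)} (he : e ∈ E) (n : ℕ) :
    (fam E (E.powerset.filter (fun S => e ∈ S)) n).card = J K (n / 2) := by
  have h1 := (hE e).1 he
  have h3 : fam E (E.powerset.filter (fun S => e ∈ S)) n = (Th K n).filter (fun I => e ∣ I) := by
    ext I
    simp only [fam, Finset.mem_filter, Finset.mem_powerset]
    refine and_congr_right fun _ => ⟨fun h => (mem_tr.1 h.2).2, fun h => ⟨tr_sub E I, mem_tr.2 ⟨he, h⟩⟩⟩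
  rw [h3, filter_dvd_eq h1.1, Finset.card_image_of_injective _ (mul_inj_on h1.1), h1.2, J]

/-- majority family -/
def maj (E : Finset (Ideal (𝓞 K))) : Finset (Finset (Ideal (𝓞 K))) :=
  E.powerset.filter (fun S => 2 ≤ S.card)

theorem maj_card {E : Finset (Ideal (𝓞 K))} (hE : IsE2 E) (h3 : E.card = 3) (n : ℕ) :
    ((fam E (maj E) n).card : ℤ) = 3 * J K (n / 4) - 2 * J K (n / 8) := by
  rw [fam_card_formula hE (H := maj E)
    (fun S hS => Finset.mem_powerset.1 (Finset.mem_filter.1 hS).1)]
  have h4 : maj E = powersetCard 2 E ∪ powersetCard 3 E := by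
    ext S
    simp only [maj, Finset.mem_filter, Finset.mem_powerset, Finset.mem_union,
      Finset.mem_powersetCard]
    constructor
    · rintro ⟨h5, h6⟩
      have := Finset.card_le_card h5
      have h7 : S.card = 2 ∨ S.card = 3 := by omega
      rcases h7 with h7 | h7
      · exact Or.inl ⟨h5, h7⟩
      · exact Or.inr ⟨h5, h7⟩
    · rintro (⟨h5, h6⟩ | ⟨h5, h6⟩) <;> exact ⟨h5, by omega⟩
  have h5 : Disjoint (powersetCard 2 E) (powersetCard 3 E) := by
    rw [Finset.disjoint_left]
    intro S h6 h7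
    rw [Finset.mem_powersetCard] at h6 h7
    omega
  rw [h4, Finset.sum_union h5]
  have h6 : ∀ T ∈ powersetCard 2 E, (∑ j ∈ range (E.card - T.card + 1),
        (-1) ^ j * ((E.card - T.card).choose j : ℤ) * (J K (n / 2 ^ (T.card + j)) : ℤ))
      = J K (n / 4) - J K (n / 8) := by
    intro T hT
    rw [(Finset.mem_powersetCard.1 hT).2, h3]
    norm_num [Finset.sum_range_succ]
    ring
  have h7 : ∀ T ∈ powersetCard 3 E, (∑ j ∈ range (E.card - T.card + 1),
        (-1) ^ j * ((E.card - T.card).choose j : ℤ) * (J K (n / 2 ^ (T.card + j)) : ℤ))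
      = J K (n / 8) := by
    intro T hT
    rw [(Finset.mem_powersetCard.1 hT).2, h3]
    norm_num [Finset.sum_range_succ]
  rw [Finset.sum_congr rfl h6, Finset.sum_congr rfl h7, Finset.sum_const, Finset.sum_const,
    Finset.card_powersetCard, Finset.card_powersetCard, h3]
  norm_num [Nat.choose]
  ring

theorem maj_MaxI {E : Finset (Ideal (𝓞 K))} (h3 : E.card = 3) : MaxI E (maj E) := by
  refine ⟨fun S hS => Finset.mem_powerset.1 (Finset.mem_filter.1 hS).1, ?_, ?_⟩
  · intro S hS T hT
    rw [maj, Finset.mem_filter, Finset.mem_powerset] at hS hT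
    by_contra hcon
    rw [Finset.not_nonempty_iff_eq_empty, ← Finset.disjoint_iff_inter_eq_empty] at hcon
    have h4 := Finset.card_le_card (Finset.union_subset hS.1 hT.1)
    rw [Finset.card_union_of_disjoint hcon] at h4
    omega
  · intro S hS
    by_cases h : 2 ≤ S.card
    · exact Or.inl (Finset.mem_filter.2 ⟨Finset.mem_powerset.2 hS, h⟩)
    · refine Or.inr (Finset.mem_filter.2 ⟨Finset.mem_powerset.2 Finset.sdiff_subset, ?_⟩)
      rw [Finset.card_sdiff_of_subset hS]
      omega

theorem MaxI_three {E : Finset (Ideal (𝓞 K))} (h3 : E.card = 3)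
    {H : Finset (Finset (Ideal (𝓞 K)))} (hH : MaxI E H) :
    (∃ e ∈ E, H = E.powerset.filter (fun S => e ∈ S)) ∨ H = maj E := by
  by_cases h : ∃ e ∈ E, {e} ∈ H
  · left
    obtain ⟨e, he, heH⟩ := h
    refine ⟨e, he, ?_⟩
    ext S
    rw [Finset.mem_filter, Finset.mem_powerset]
    constructor
    · intro hS
      refine ⟨hH.sub S hS, ?_⟩
      obtain ⟨p, hp⟩ := hH.inter _ heH _ hS
      rw [Finset.mem_inter, Finset.mem_singleton] at hp
      exact hp.1 ▸ hp.2
    · rintro ⟨hS, heS⟩
      rcases hH.full S hS with h1 | h1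
      · exact h1
      · obtain ⟨p, hp⟩ := hH.inter _ heH _ h1
        rw [Finset.mem_inter, Finset.mem_singleton, Finset.mem_sdiff] at hp
        exact absurd (hp.1 ▸ heS) hp.2.2
  · right
    push Not at h
    ext S
    rw [maj, Finset.mem_filter, Finset.mem_powerset]
    have hne : (∅ : Finset (Ideal (𝓞 K))) ∉ H := fun h0 => by
      obtain ⟨p, hp⟩ := hH.inter _ h0 _ h0
      simp at hp
    constructor
    · intro hS
      refine ⟨hH.sub S hS, ?_⟩
      by_contra hc
      have h4 : S.card = 0 ∨ S.card = 1 := by omega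
      rcases h4 with h4 | h4
      · rw [Finset.card_eq_zero] at h4
        exact hne (h4 ▸ hS)
      · obtain ⟨a, rfl⟩ := Finset.card_eq_one.1 h4
        exact h a (hH.sub _ hS (Finset.mem_singleton_self a)) hS
    · rintro ⟨hS, h2⟩
      by_contra hc
      have h4 : E \ S ∈ H := (hH.compl hS).2 hc
      have h5 := Finset.card_sdiff_of_subset hS
      have h6 : (E \ S).card = 0 ∨ (E \ S).card = 1 := by omega
      rcases h6 with h6 | h6
      · rw [Finset.card_eq_zero] at h6
        exact hne (h6 ▸ h4)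
      · obtain ⟨a, ha⟩ := Finset.card_eq_one.1 h6
        rw [ha] at h4
        exact h a (hH.sub _ h4 (Finset.mem_singleton_self a)) h4

/-- classification for three primes of norm two -/
theorem classification_three {E : Finset (Ideal (𝓞 K))} (hE : IsE2 E) (h3 : E.card = 3) :
    ∀ᶠ n : ℕ in atTop, ∀ A : Finset (Ideal (𝓞 K)),
      (A ⊆ Th K n ∧ CFr A ∧ ∀ B ⊆ Th K n, CFr B → B.card ≤ A.card) ↔
      (3 * J K (n / 4) ≤ J K (n / 2) + 2 * J K (n / 8) ∧
        ∃ e ∈ E, A = fam E (E.powerset.filter (fun S => e ∈ S)) n) ∨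
      (J K (n / 2) + 2 * J K (n / 8) ≤ 3 * J K (n / 4) ∧ A = fam E (maj E) n) := by
  have hne : E.Nonempty := Finset.card_pos.1 (by omega)
  filter_upwards [classification hE hne] with n hn A
  rw [hn A]
  have hm := maj_card hE h3 n
  obtain ⟨e0, he0⟩ := hne
  constructor
  · rintro ⟨H, hH, rfl, hbest⟩
    rcases MaxI_three h3 hH with ⟨e, he, rfl⟩ | rfl
    · left
      have h4 := hbest _ (maj_MaxI h3)
      rw [star_card hE he] at h4
      refine ⟨by zify at h4 ⊢; linarith, e, he, rfl⟩
    · right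
      have h4 := hbest _ (star_MaxI he0)
      rw [star_card hE he0] at h4
      refine ⟨by zify at h4 ⊢; linarith, rfl⟩
  · rintro (⟨h4, e, he, rfl⟩ | ⟨h4, rfl⟩)
    · refine ⟨_, star_MaxI he, rfl, fun H' hH' => ?_⟩
      rw [star_card hE he]
      rcases MaxI_three h3 hH' with ⟨e', he', rfl⟩ | rfl
      · rw [star_card hE he']
      · zify at h4 ⊢; linarith
    · refine ⟨_, maj_MaxI h3, rfl, fun H' hH' => ?_⟩
      rcases MaxI_three h3 hH' with ⟨e', he', rfl⟩ | rfl
      · rw [star_card hE he']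
        zify at h4 ⊢; linarith
      · exact le_refl _

end

end Pool.Agent.Helper3.CF
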