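import Mathlib

set_option autoImplicit false

/-!
# A two-function correlation inequality for the disjoint coupling of product measures
-/

open Finset

namespace Pool.Agent.Helper3.CF

variable {ι : Type*} [DecidableEq ι]

noncomputable section

/-- product measure -/
def mu (p : ι → ℝ) (P a : Finset ι) : ℝ := ∏ q ∈ P, if q ∈ a then p q else 1 - p q

/-- kernel of the disjoint coupling at one coordinate -/
def kk (p : ℝ) (s t : Prop) [Decidable s] [Decidable t] : ℝ :=
  if s then (if t then 0 else p) else (if t then p else 1 - 2 * p)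

/-- disjoint coupling -/
def nu (p : ι → ℝ) (P a b : Finset ι) : ℝ := ∏ q ∈ P, kk (p q) (q ∈ a) (q ∈ b)

def EE (p : ι → ℝ) (P : Finset ι) (F : Finset ι → ℝ) : ℝ := ∑ a ∈ P.powerset, mu p P a * F a

def BB (p : ι → ℝ) (P : Finset ι) (F G : Finset ι → ℝ) : ℝ :=
  ∑ a ∈ P.powerset, ∑ b ∈ P.powerset, nu p P a b * F a * G b

theorem mu_insert_out {p : ι → ℝ} {P a : Finset ι} {q : ι} (hq : q ∉ P) (ha : a ⊆ P) :
    mu p (insert q P) a = (1 - p q) * mu p P a := by
  unfold mu
  rw [Finset.prod_insert hq, if_neg (fun h => hq (ha h))]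

theorem mu_insert_in {p : ι → ℝ} {P a : Finset ι} {q : ι} (hq : q ∉ P) :
    mu p (insert q P) (insert q a) = p q * mu p P a := by
  unfold mu
  rw [Finset.prod_insert hq, if_pos (mem_insert_self _ _)]
  congr 1
  refine Finset.prod_congr rfl fun r hr => ?_
  have hne : r ≠ q := fun h => hq (h ▸ hr)
  simp [Finset.mem_insert, hne]

theorem EE_insert {p : ι → ℝ} {P : Finset ι} {q : ι} (hq : q ∉ P) (F : Finset ι → ℝ) :
    EE p (insert q P) F = (1 - p q) * EE p P F + p q * EE p P (fun a => F (insert q a)) := by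
  unfold EE
  rw [Finset.sum_powerset_insert hq, Finset.mul_sum, Finset.mul_sum]
  congr 1
  · refine Finset.sum_congr rfl fun a ha => ?_
    rw [mu_insert_out hq (Finset.mem_powerset.1 ha)]; ring
  · refine Finset.sum_congr rfl fun a ha => ?_
    rw [mu_insert_in hq]; ring

theorem nu_congr {p : ι → ℝ} {P a b : Finset ι} {q : ι} (hq : q ∉ P) :
    (∏ r ∈ P, kk (p r) (r ∈ insert q a) (r ∈ b)) = nu p P a b ∧
    (∏ r ∈ P, kk (p r) (r ∈ a) (r ∈ insert q b)) = nu p P a b ∧
    (∏ r ∈ P, kk (p r) (r ∈ insert q a) (r ∈ insert q b)) = nu p P a b := by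
  have hne : ∀ r ∈ P, r ≠ q := fun r hr h => hq (h ▸ hr)
  refine ⟨?_, ?_, ?_⟩ <;>
  · unfold nu
    refine Finset.prod_congr rfl fun r hr => ?_
    simp [Finset.mem_insert, hne r hr, kk]

theorem BB_insert {p : ι → ℝ} {P : Finset ι} {q : ι} (hq : q ∉ P) (F G : Finset ι → ℝ) :
    BB p (insert q P) F G = (1 - 2 * p q) * BB p P F G + p q * BB p P (fun a => F (insert q a)) G
      + p q * BB p P F (fun b => G (insert q b)) := by
  unfold BB
  rw [Finset.sum_powerset_insert hq]
  have h1 : ∀ a ∈ P.powerset, (∑ b ∈ (insert q P).powerset, nu p (insert q P) a b * F a * G b)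
      = (1 - 2 * p q) * (∑ b ∈ P.powerset, nu p P a b * F a * G b)
        + p q * (∑ b ∈ P.powerset, nu p P a b * F a * G (insert q b)) := by
    intro a ha
    have hqa : q ∉ a := fun h => hq (Finset.mem_powerset.1 ha h)
    rw [Finset.sum_powerset_insert hq, Finset.mul_sum, Finset.mul_sum]
    congr 1
    · refine Finset.sum_congr rfl fun b hb => ?_
      have hqb : q ∉ b := fun h => hq (Finset.mem_powerset.1 hb h)
      have : nu p (insert q P) a b = (1 - 2 * p q) * nu p P a b := by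
        unfold nu; rw [Finset.prod_insert hq]; simp [kk, hqa, hqb]
      rw [this]; ring
    · refine Finset.sum_congr rfl fun b hb => ?_
      have : nu p (insert q P) a (insert q b) = p q * nu p P a b := by
        rw [nu, Finset.prod_insert hq, (nu_congr (p := p) (a := a) (b := b) hq).2.1]
        simp [kk, hqa]
      rw [this]; ring
  have h2 : ∀ a ∈ P.powerset,
      (∑ b ∈ (insert q P).powerset, nu p (insert q P) (insert q a) b * F (insert q a) * G b)
      = p q * (∑ b ∈ P.powerset, nu p P a b * F (insert q a) * G b) := by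
    intro a ha
    rw [Finset.sum_powerset_insert hq, Finset.mul_sum]
    have h3 : (∑ b ∈ P.powerset, nu p (insert q P) (insert q a) (insert q b) * F (insert q a)
        * G (insert q b)) = 0 := by
      refine Finset.sum_eq_zero fun b hb => ?_
      have : nu p (insert q P) (insert q a) (insert q b) = 0 := by
        rw [nu, Finset.prod_insert hq]; simp [kk]
      rw [this]; ring
    rw [h3, add_zero]
    refine Finset.sum_congr rfl fun b hb => ?_
    have hqb : q ∉ b := fun h => hq (Finset.mem_powerset.1 hb h)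
    have : nu p (insert q P) (insert q a) b = p q * nu p P a b := by
      rw [nu, Finset.prod_insert hq, (nu_congr (p := p) (a := a) (b := b) hq).1]
      simp [kk, hqb]
    rw [this]; ring
  rw [Finset.sum_congr rfl h1, Finset.sum_congr rfl h2, Finset.sum_add_distrib, ← Finset.mul_sum,
    ← Finset.mul_sum, ← Finset.mul_sum]
  ring

theorem spectral_step {p A B m0 m1 s0 s1 n0 n1 t0 t1 b00 b10 b01 : ℝ} (hp0 : 0 ≤ p)
    (hp : p ≤ 1 / 3) (hA : 0 < A) (hB : 0 < B) (hAB : A * B = 1)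
    (h00 : |b00 - m0 * n0| ≤ (1 / 4) * (A * (s0 - m0 ^ 2) + B * (t0 - n0 ^ 2)))
    (h10 : |b10 - m1 * n0| ≤ (1 / 4) * (A * (s1 - m1 ^ 2) + B * (t0 - n0 ^ 2)))
    (h01 : |b01 - m0 * n1| ≤ (1 / 4) * (A * (s0 - m0 ^ 2) + B * (t1 - n1 ^ 2))) :
    |((1 - 2 * p) * b00 + p * b10 + p * b01)
        - ((1 - p) * m0 + p * m1) * ((1 - p) * n0 + p * n1)|
      ≤ (1 / 4) * (A * (((1 - p) * s0 + p * s1) - ((1 - p) * m0 + p * m1) ^ 2)
        + B * (((1 - p) * t0 + p * t1) - ((1 - p) * n0 + p * n1) ^ 2)) := by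
  have e1 : ((1 - 2 * p) * b00 + p * b10 + p * b01)
        - ((1 - p) * m0 + p * m1) * ((1 - p) * n0 + p * n1)
      = (1 - 2 * p) * (b00 - m0 * n0) + p * (b10 - m1 * n0) + p * (b01 - m0 * n1)
        - p ^ 2 * ((m1 - m0) * (n1 - n0)) := by ring
  have h4 : |(m1 - m0) * (n1 - n0)| ≤ (A * (m1 - m0) ^ 2 + B * (n1 - n0) ^ 2) / 2 := by
    set x := m1 - m0
    set y := n1 - n0
    have g1 : 0 ≤ B * (A * x - y) ^ 2 := by positivity
    have g2 : 0 ≤ B * (A * x + y) ^ 2 := by positivity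
    have g3 : B * (A * x - y) ^ 2 = A * x ^ 2 * (A * B) - 2 * x * y * (A * B) + B * y ^ 2 := by ring
    have g4 : B * (A * x + y) ^ 2 = A * x ^ 2 * (A * B) + 2 * x * y * (A * B) + B * y ^ 2 := by ring
    rw [hAB] at g3 g4
    rw [abs_le]
    constructor <;> nlinarith
  rw [e1]
  have hp12 : 0 ≤ 1 - 2 * p := by linarith
  calc |(1 - 2 * p) * (b00 - m0 * n0) + p * (b10 - m1 * n0) + p * (b01 - m0 * n1)
        - p ^ 2 * ((m1 - m0) * (n1 - n0))|
      ≤ |(1 - 2 * p) * (b00 - m0 * n0)| + |p * (b10 - m1 * n0)| + |p * (b01 - m0 * n1)|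
        + |p ^ 2 * ((m1 - m0) * (n1 - n0))| := by
        refine (abs_sub _ _).trans ?_
        gcongr
        exact abs_add_three _ _ _
    _ = (1 - 2 * p) * |b00 - m0 * n0| + p * |b10 - m1 * n0| + p * |b01 - m0 * n1|
        + p ^ 2 * |(m1 - m0) * (n1 - n0)| := by
        rw [abs_mul (1 - 2 * p), abs_mul p, abs_mul p, abs_mul (p ^ 2), abs_of_nonneg hp12,
          abs_of_nonneg hp0, abs_of_nonneg (by positivity : (0:ℝ) ≤ p ^ 2)]
    _ ≤ (1 - 2 * p) * ((1 / 4) * (A * (s0 - m0 ^ 2) + B * (t0 - n0 ^ 2)))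
        + p * ((1 / 4) * (A * (s1 - m1 ^ 2) + B * (t0 - n0 ^ 2)))
        + p * ((1 / 4) * (A * (s0 - m0 ^ 2) + B * (t1 - n1 ^ 2)))
        + p ^ 2 * ((A * (m1 - m0) ^ 2 + B * (n1 - n0) ^ 2) / 2) := by gcongr
    _ ≤ _ := by
        have h5 : 0 ≤ p * (1 - 3 * p) * (A * (m1 - m0) ^ 2 + B * (n1 - n0) ^ 2) := by
          have : 0 ≤ 1 - 3 * p := by linarith
          positivity
        nlinarith [h5]

theorem spectral {p : ι → ℝ} {A B : ℝ} (hA : 0 < A) (hB : 0 < B) (hAB : A * B = 1)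
    (P : Finset ι) (hp : ∀ q ∈ P, 0 ≤ p q ∧ p q ≤ 1 / 3) (F G : Finset ι → ℝ) :
    |BB p P F G - EE p P F * EE p P G| ≤ (1 / 4) * (A * (EE p P (fun a => F a ^ 2) - EE p P F ^ 2)
      + B * (EE p P (fun a => G a ^ 2) - EE p P G ^ 2)) := by
  induction P using Finset.induction_on generalizing F G with
  | empty => simp [BB, EE, nu, mu]
  | insert q P hq ih =>
    have ih' := ih (fun r hr => hp r (Finset.mem_insert_of_mem hr))
    rw [BB_insert hq, EE_insert hq, EE_insert hq, EE_insert hq, EE_insert hq]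
    exact spectral_step (hp q (mem_insert_self _ _)).1 (hp q (mem_insert_self _ _)).2 hA hB hAB
      (ih' _ _) (ih' _ _) (ih' _ _)

theorem mu_nonneg {p : ι → ℝ} {P a : Finset ι} (hp : ∀ q ∈ P, 0 ≤ p q ∧ p q ≤ 1 / 3) :
    0 ≤ mu p P a := by
  unfold mu
  refine Finset.prod_nonneg fun q hq => ?_
  split_ifs
  · exact (hp q hq).1
  · linarith [(hp q hq).2]

theorem mu_sum {p : ι → ℝ} (P : Finset ι) : EE p P (fun _ => 1) = 1 := by
  induction P using Finset.induction_on with
  | empty => simp [EE, mu]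
  | insert q P hq ih => rw [EE_insert hq, ih]; ring

theorem EE_mono {p : ι → ℝ} {P : Finset ι} (hp : ∀ q ∈ P, 0 ≤ p q ∧ p q ≤ 1 / 3)
    {F G : Finset ι → ℝ} (h : ∀ a ⊆ P, F a ≤ G a) : EE p P F ≤ EE p P G := by
  unfold EE
  refine Finset.sum_le_sum fun a ha => ?_
  exact mul_le_mul_of_nonneg_left (h a (Finset.mem_powerset.1 ha)) (mu_nonneg hp)

/-- the final form -/
theorem spectral_final {p : ι → ℝ} (P : Finset ι) (hp : ∀ q ∈ P, 0 ≤ p q ∧ p q ≤ 1 / 3)
    (F G : Finset ι → ℝ) (hF : ∀ a ⊆ P, 0 ≤ F a ∧ F a ≤ 1) (hG : ∀ a ⊆ P, 0 ≤ G a ∧ G a ≤ 1)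
    {η : ℝ} (hη : 0 ≤ η) (h : BB p P F G ≤ η) :
    EE p P F + EE p P G + 3 * (EE p P F * EE p P G) ≤ 1 + 8 * η := by
  set α := EE p P F with hα
  set β := EE p P G with hβ
  have hα0 : 0 ≤ α := by
    have h1 := EE_mono (F := fun _ => 0) (G := F) hp (fun a ha => (hF a ha).1)
    have h0 : EE p P (fun _ => (0:ℝ)) = 0 := by simp [EE]
    rwa [h0] at h1
  have hβ0 : 0 ≤ β := by
    have h1 := EE_mono (F := fun _ => 0) (G := G) hp (fun a ha => (hG a ha).1)
    have h0 : EE p P (fun _ => (0:ℝ)) = 0 := by simp [EE]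
    rwa [h0] at h1
  have hα1 : α ≤ 1 := by
    have := EE_mono (F := F) (G := fun _ => 1) hp (fun a ha => (hF a ha).2)
    rwa [mu_sum] at this
  have hβ1 : β ≤ 1 := by
    have := EE_mono (F := G) (G := fun _ => 1) hp (fun a ha => (hG a ha).2)
    rwa [mu_sum] at this
  have hF2 : EE p P (fun a => F a ^ 2) ≤ α :=
    EE_mono hp (fun a ha => by nlinarith [(hF a ha).1, (hF a ha).2])
  have hG2 : EE p P (fun a => G a ^ 2) ≤ β :=
    EE_mono hp (fun a ha => by nlinarith [(hG a ha).1, (hG a ha).2])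
  have main : ∀ l : ℝ, 0 < l → α * β - η ≤ (1 / 4) * (l * (α - α ^ 2) + l⁻¹ * (β - β ^ 2)) := by
    intro l hl
    have h1 := (abs_le.1 (spectral (p := p) hl (inv_pos.2 hl) (mul_inv_cancel₀ hl.ne') P hp F G)).1
    have h2 : l * (EE p P (fun a => F a ^ 2) - α ^ 2) ≤ l * (α - α ^ 2) := by
      apply mul_le_mul_of_nonneg_left _ hl.le; linarith
    have h3 : l⁻¹ * (EE p P (fun a => G a ^ 2) - β ^ 2) ≤ l⁻¹ * (β - β ^ 2) := by
      apply mul_le_mul_of_nonneg_left _ (inv_pos.2 hl).le; linarith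
    linarith
  rcases hβ0.eq_or_lt with hb | hb
  · rw [← hb]; linarith
  rcases hα1.eq_or_lt with ha | ha
  · -- α = 1
    rw [ha] at main ⊢
    have h5 : β ≤ η := by
      refine le_of_forall_pos_le_add fun e he => ?_
      have := main (1 / e) (by positivity)
      have h6 : (1 / e)⁻¹ = e := by rw [one_div, inv_inv]
      rw [h6] at this
      nlinarith
    linarith
  · have hl : 0 < 2 * β / (1 - α) := div_pos (by linarith) (by linarith)
    have h7 := main _ hl
    have h8 : 2 * β / (1 - α) * (α - α ^ 2) = 2 * (α * β) := by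
      field_simp [(by linarith : (1:ℝ) - α ≠ 0)]
    have h9 : (2 * β / (1 - α))⁻¹ * (β - β ^ 2) = (1 - α) * (1 - β) / 2 := by
      rw [inv_div]; field_simp
    rw [h8, h9] at h7
    nlinarith

/-- bound for the coupled form by disjoint pairs -/
theorem BB_le {p : ι → ℝ} (P : Finset ι) (hp : ∀ q ∈ P, 0 ≤ p q ∧ p q ≤ 1 / 3)
    (F G : Finset ι → ℝ) (hF : ∀ a ⊆ P, 0 ≤ F a) (hG : ∀ a ⊆ P, 0 ≤ G a) :
    BB p P F G ≤ ∑ a ∈ P.powerset, ∑ b ∈ P.powerset,
      if Disjoint a b then
        (mu p P a * F a * ∏ q ∈ a, (1 - p q)⁻¹) * (mu p P b * G b * ∏ q ∈ b, (1 - p q)⁻¹)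
      else 0 := by
  unfold BB
  refine Finset.sum_le_sum fun a ha => Finset.sum_le_sum fun b hb => ?_
  have ha' := Finset.mem_powerset.1 ha
  have hb' := Finset.mem_powerset.1 hb
  split_ifs with hd
  · have h1 : nu p P a b ≤ (mu p P a * ∏ q ∈ a, (1 - p q)⁻¹) * (mu p P b * ∏ q ∈ b, (1 - p q)⁻¹) := by
      have e1 : ∀ c ⊆ P, (∏ q ∈ c, (1 - p q)⁻¹) = ∏ q ∈ P, if q ∈ c then (1 - p q)⁻¹ else 1 := by
        intro c hc
        rw [Finset.prod_ite_mem, Finset.inter_eq_right.2 hc]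
      rw [e1 a ha', e1 b hb', mu, mu, nu, ← Finset.prod_mul_distrib, ← Finset.prod_mul_distrib,
        ← Finset.prod_mul_distrib]
      refine Finset.prod_le_prod (fun q hq => ?_) (fun q hq => ?_)
      · unfold kk
        have := hp q hq
        split_ifs <;> linarith
      · have h2 := hp q hq
        have h3 : (1 - p q) ≠ 0 := by linarith
        by_cases hqa : q ∈ a
        · have hqb : q ∉ b := fun h => (Finset.disjoint_left.1 hd) hqa h
          simp only [kk, hqa, hqb, if_true, if_false]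
          field_simp
          exact le_refl _
        · by_cases hqb : q ∈ b
          · simp only [kk, hqa, hqb, if_true, if_false]
            field_simp
            exact le_refl _
          · simp only [kk, hqa, hqb, if_false]
            nlinarith [sq_nonneg (p q)]
    calc nu p P a b * F a * G b = nu p P a b * (F a * G b) := by ring
      _ ≤ ((mu p P a * ∏ q ∈ a, (1 - p q)⁻¹) * (mu p P b * ∏ q ∈ b, (1 - p q)⁻¹)) * (F a * G b) :=
        mul_le_mul_of_nonneg_right h1 (mul_nonneg (hF a ha') (hG b hb'))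
      _ = _ := by ring
  · obtain ⟨q, hqa, hqb⟩ := Finset.not_disjoint_iff.1 hd
    have : nu p P a b = 0 := by
      unfold nu
      exact Finset.prod_eq_zero (ha' hqa) (by simp [kk, hqa, hqb])
    rw [this]; simp

end

end Pool.Agent.Helper3.CF
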