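import Pool.Agent.Helper3.CF.Moment
import Pool.Agent.Helper3.CF.Spectral

set_option autoImplicit false

/-!
# Densities of the sets of ideals with prescribed divisibility by finitely many primes
-/

open Finset Filter Topology NumberField
open scoped Classical

namespace Pool.Agent.Helper3.CF

noncomputable section

set_option linter.unusedSectionVars false

variable {K : Type*} [Field K] [NumberField K]

def cBS (B S : Finset (Ideal (𝓞 K))) (n : ℕ) : ℕ :=
  ((Th K n).filter (fun I => (∀ p ∈ B, p ∣ I) ∧ (∀ p ∈ S, ¬ p ∣ I))).card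

theorem tendsto_natdiv {g : ℕ → ℝ} {c : ℝ} (h : Tendsto (fun n : ℕ => g n / n) atTop (𝓝 c))
    {N : ℕ} (hN : 0 < N) : Tendsto (fun n : ℕ => g (n / N) / n) atTop (𝓝 (c / N)) := by
  have h1 : Tendsto (fun n : ℕ => n / N) atTop atTop := Nat.tendsto_div_const_atTop hN.ne'
  have h2 := h.comp h1
  have hN' : (0:ℝ) < N := by exact_mod_cast hN
  have h3 : Tendsto (fun n : ℕ => ((n / N : ℕ) : ℝ) / n) atTop (𝓝 (1 / N)) := by
    have h4 : Tendsto (fun n : ℕ => (1 / (N:ℝ)) - 1 / (n:ℝ)) atTop (𝓝 (1 / N - 0)) :=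
      tendsto_const_nhds.sub tendsto_one_div_atTop_nhds_zero_nat
    rw [sub_zero] at h4
    refine tendsto_of_tendsto_of_tendsto_of_le_of_le' h4 tendsto_const_nhds ?_ ?_
    · filter_upwards [eventually_ge_atTop 1] with n hn
      have hn' : (0:ℝ) < n := by exact_mod_cast hn
      have h5 : (n:ℝ) < N * ((n / N : ℕ) + 1) := by
        have := Nat.lt_mul_div_succ n hN
        exact_mod_cast this
      rw [le_div_iff₀ hn', sub_mul, one_div_mul_cancel hn'.ne', one_div, inv_mul_eq_div,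
        sub_le_iff_le_add, div_le_iff₀ hN']
      linarith
    · filter_upwards [eventually_ge_atTop 1] with n hn
      have hn' : (0:ℝ) < n := by exact_mod_cast hn
      have h5 : ((n / N : ℕ) : ℝ) ≤ n / N := Nat.cast_div_le
      rw [div_le_iff₀ hn', one_div, inv_mul_eq_div]
      exact h5
  have h4 := h2.mul h3
  rw [mul_one_div] at h4
  refine h4.congr' ?_
  filter_upwards [eventually_ge_atTop N] with n hn
  have h5 : (0:ℝ) < ((n / N : ℕ) : ℝ) := by exact_mod_cast Nat.div_pos hn hN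
  simp only [Function.comp_apply]
  field_simp

theorem cBS_nil (n : ℕ) : cBS (∅ : Finset (Ideal (𝓞 K))) ∅ n = J K n := by
  simp [cBS, J]

theorem cBS_insertB {B : Finset (Ideal (𝓞 K))} {q : Ideal (𝓞 K)} (hB : ∀ p ∈ B, Prime p)
    (hq : Prime q) (hqB : q ∉ B) (n : ℕ) :
    cBS (insert q B) ∅ n = cBS B ∅ (n / Ideal.absNorm q) := by
  have h0 := card_dvd hq n (fun I => ∀ p ∈ B, p ∣ I)
  unfold cBS
  refine Eq.trans ?_ (h0.trans ?_)
  · congr 1
    ext I
    simp only [Finset.mem_filter, Finset.mem_insert, forall_eq_or_imp]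
    simp
  · congr 1
    ext I
    simp only [Finset.mem_filter]
    refine and_congr_right fun _ => ?_
    simp only [Finset.notMem_empty, false_imp_iff, imp_true_iff, and_true]
    refine forall₂_congr fun p hp => ?_
    rw [dvd_mul_prime (hB p hp) hq (fun h => hqB (h ▸ hp))]

theorem cBS_insertS (B S : Finset (Ideal (𝓞 K))) (q : Ideal (𝓞 K)) (n : ℕ) :
    cBS B S n = cBS B (insert q S) n + cBS (insert q B) S n := by
  unfold cBS
  rw [← Finset.card_union_of_disjoint]
  · congr 1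
    ext I
    simp only [Finset.mem_filter, Finset.mem_union, Finset.mem_insert, forall_eq_or_imp]
    tauto
  · rw [Finset.disjoint_left]
    intro I h2 h3
    simp only [Finset.mem_filter, Finset.mem_insert, forall_eq_or_imp] at h2 h3
    exact h2.2.2.1 h3.2.1.1

theorem cBS_tendsto (S : Finset (Ideal (𝓞 K))) : ∀ (B : Finset (Ideal (𝓞 K))),
    (∀ p ∈ B, Prime p) → (∀ p ∈ S, Prime p) → Disjoint B S →
    Tendsto (fun n : ℕ => (cBS B S n : ℝ) / n) atTop
      (𝓝 (kap K * (∏ p ∈ B, 1 / (Ideal.absNorm p : ℝ)) * ∏ p ∈ S, (1 - 1 / (Ideal.absNorm p : ℝ)))) := by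
  induction S using Finset.induction_on with
  | empty =>
    intro B
    induction B using Finset.induction_on with
    | empty =>
      intro _ _ _
      simp only [cBS_nil, Finset.prod_empty, mul_one]
      exact J_tendsto
    | insert q B hq ih =>
      intro hB hS _
      have hqp := hB q (mem_insert_self _ _)
      have hBp := fun p hp => hB p (mem_insert_of_mem (s := B) (a := p) hp)
      have h1 := ih hBp hS (Finset.disjoint_empty_right _)
      have h2 := tendsto_natdiv h1 (N := Ideal.absNorm q) (by have := prime_norm hqp; omega)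
      simp only [Finset.prod_empty, mul_one] at h2 ⊢
      rw [Finset.prod_insert hq]
      have e : kap K * (1 / (Ideal.absNorm q : ℝ) * ∏ p ∈ B, 1 / (Ideal.absNorm p : ℝ))
          = kap K * (∏ p ∈ B, 1 / (Ideal.absNorm p : ℝ)) / Ideal.absNorm q := by ring
      rw [e]
      refine h2.congr fun n => ?_
      rw [cBS_insertB hBp hqp hq]
  | insert q S hq ih =>
    intro B hB hS hd
    have hqp := hS q (mem_insert_self _ _)
    have hSp := fun p hp => hS p (mem_insert_of_mem (s := S) (a := p) hp)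
    have hqB : q ∉ B := fun h => (Finset.disjoint_left.1 hd) h (mem_insert_self _ _)
    have hd1 : Disjoint B S := by
      rw [Finset.disjoint_insert_right] at hd; exact hd.2
    have hd2 : Disjoint (insert q B) S := by
      rw [Finset.disjoint_insert_left]; exact ⟨hq, hd1⟩
    have h1 := ih B hB hSp hd1
    have h2 := ih (insert q B) (fun p hp => by
      rcases Finset.mem_insert.1 hp with rfl | hp
      · exact hqp
      · exact hB p hp) hSp hd2
    have h3 := h1.sub h2
    rw [Finset.prod_insert hqB] at h3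
    rw [Finset.prod_insert hq]
    have e : kap K * (∏ p ∈ B, 1 / (Ideal.absNorm p : ℝ)) * ((1 - 1 / (Ideal.absNorm q : ℝ))
          * ∏ p ∈ S, (1 - 1 / (Ideal.absNorm p : ℝ)))
        = kap K * (∏ p ∈ B, 1 / (Ideal.absNorm p : ℝ)) * ∏ p ∈ S, (1 - 1 / (Ideal.absNorm p : ℝ))
          - kap K * (1 / (Ideal.absNorm q : ℝ) * ∏ p ∈ B, 1 / (Ideal.absNorm p : ℝ))
            * ∏ p ∈ S, (1 - 1 / (Ideal.absNorm p : ℝ)) := by ring
    rw [e]
    refine h3.congr fun n => ?_
    have := cBS_insertS B S q n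
    have h5 : (cBS B S n : ℝ) = cBS B (insert q S) n + cBS (insert q B) S n := by exact_mod_cast this
    rw [h5]; ring

/-! ### types -/

/-- primes of `Q` dividing `I` -/
def tr (Q : Finset (Ideal (𝓞 K))) (I : Ideal (𝓞 K)) : Finset (Ideal (𝓞 K)) := Q.filter (fun p => p ∣ I)

theorem tr_sub (Q : Finset (Ideal (𝓞 K))) (I : Ideal (𝓞 K)) : tr Q I ⊆ Q := Finset.filter_subset _ _

theorem mem_tr {Q : Finset (Ideal (𝓞 K))} {I p : Ideal (𝓞 K)} : p ∈ tr Q I ↔ p ∈ Q ∧ p ∣ I :=
  Finset.mem_filter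

theorem tr_eq_iff {Q T : Finset (Ideal (𝓞 K))} (hT : T ⊆ Q) {I : Ideal (𝓞 K)} :
    tr Q I = T ↔ (∀ p ∈ T, p ∣ I) ∧ (∀ p ∈ Q \ T, ¬ p ∣ I) := by
  constructor
  · rintro rfl
    refine ⟨fun p hp => (mem_tr.1 hp).2, fun p hp h => ?_⟩
    rw [Finset.mem_sdiff] at hp
    exact hp.2 (mem_tr.2 ⟨hp.1, h⟩)
  · rintro ⟨h1, h2⟩
    ext p
    rw [mem_tr]
    constructor
    · rintro ⟨h3, h4⟩
      by_contra h5
      exact h2 p (Finset.mem_sdiff.2 ⟨h3, h5⟩) h4
    · intro h3; exact ⟨hT h3, h1 p h3⟩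

/-- set of the primes of norm two, as a hypothesis -/
def IsE2 (E : Finset (Ideal (𝓞 K))) : Prop := ∀ p, p ∈ E ↔ Prime p ∧ Ideal.absNorm p = 2

/-- local probabilities -/
def pr (q : Ideal (𝓞 K)) : ℝ := 1 / (Ideal.absNorm q : ℝ)

theorem count_type_tendsto {E P T a : Finset (Ideal (𝓞 K))} (hE : IsE2 E)
    (hP : ∀ p ∈ P, Prime p ∧ 3 ≤ Ideal.absNorm p) (hT : T ⊆ E) (ha : a ⊆ P) :
    Tendsto (fun n : ℕ => (((Th K n).filter (fun I => tr E I = T ∧ tr P I = a)).card : ℝ) / n) atTop
      (𝓝 (kap K / 2 ^ E.card * mu pr P a)) := by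
  have hEP : Disjoint E P := by
    rw [Finset.disjoint_left]
    intro p h1 h2
    have h3 := ((hE p).1 h1).2
    have h4 := (hP p h2).2
    omega
  have hTa : Disjoint T a := Finset.disjoint_of_subset_left hT (Finset.disjoint_of_subset_right ha hEP)
  have hETPa : Disjoint (E \ T) (P \ a) :=
    Finset.disjoint_of_subset_left Finset.sdiff_subset
      (Finset.disjoint_of_subset_right Finset.sdiff_subset hEP)
  have hd : Disjoint (T ∪ a) ((E \ T) ∪ (P \ a)) := by
    rw [Finset.disjoint_left]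
    intro p h1 h2
    simp only [Finset.mem_union, Finset.mem_sdiff] at h1 h2
    rcases h1 with h1 | h1 <;> rcases h2 with h2 | h2
    · exact h2.2 h1
    · exact (Finset.disjoint_left.1 hEP) (hT h1) h2.1
    · exact (Finset.disjoint_left.1 hEP) h2.1 (ha h1)
    · exact h2.2 h1
  have h1 := cBS_tendsto ((E \ T) ∪ (P \ a)) (T ∪ a) (fun p hp => by
      rcases Finset.mem_union.1 hp with hp | hp
      · exact ((hE p).1 (hT hp)).1
      · exact (hP p (ha hp)).1) (fun p hp => by
      rcases Finset.mem_union.1 hp with hp | hp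
      · exact ((hE p).1 (Finset.mem_sdiff.1 hp).1).1
      · exact (hP p (Finset.mem_sdiff.1 hp).1).1) hd
  have e : kap K * (∏ p ∈ T ∪ a, 1 / (Ideal.absNorm p : ℝ))
      * ∏ p ∈ (E \ T) ∪ (P \ a), (1 - 1 / (Ideal.absNorm p : ℝ)) = kap K / 2 ^ E.card * mu pr P a := by
    rw [Finset.prod_union hTa, Finset.prod_union hETPa]
    have e1 : ∏ p ∈ T, 1 / (Ideal.absNorm p : ℝ) = (1 / 2) ^ T.card := by
      rw [← Finset.prod_const]
      refine Finset.prod_congr rfl fun p hp => ?_
      rw [((hE p).1 (hT hp)).2]; norm_num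
    have e2 : ∏ p ∈ E \ T, (1 - 1 / (Ideal.absNorm p : ℝ)) = (1 / 2) ^ (E \ T).card := by
      rw [← Finset.prod_const]
      refine Finset.prod_congr rfl fun p hp => ?_
      rw [((hE p).1 (Finset.mem_sdiff.1 hp).1).2]; norm_num
    have e3 : mu pr P a = (∏ p ∈ a, 1 / (Ideal.absNorm p : ℝ))
        * ∏ p ∈ P \ a, (1 - 1 / (Ideal.absNorm p : ℝ)) := by
      unfold mu pr
      rw [Finset.prod_ite, Finset.filter_mem_eq_inter, Finset.inter_eq_right.2 ha]
      congr 1
      refine Finset.prod_congr ?_ fun _ _ => rfl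
      ext p; simp
    have e4 : ((1:ℝ) / 2) ^ T.card * (1 / 2) ^ (E \ T).card = 1 / 2 ^ E.card := by
      rw [← pow_add, ← Finset.card_union_of_disjoint Finset.disjoint_sdiff,
        Finset.union_sdiff_of_subset hT]
      simp
    rw [e1, e2, e3]
    calc kap K * ((1 / 2) ^ T.card * ∏ p ∈ a, 1 / (Ideal.absNorm p : ℝ))
        * ((1 / 2) ^ (E \ T).card * ∏ p ∈ P \ a, (1 - 1 / (Ideal.absNorm p : ℝ)))
        = kap K * ((1 / 2) ^ T.card * (1 / 2) ^ (E \ T).card) * ((∏ p ∈ a, 1 / (Ideal.absNorm p : ℝ))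
        * ∏ p ∈ P \ a, (1 - 1 / (Ideal.absNorm p : ℝ))) := by ring
      _ = _ := by rw [e4]; ring
  rw [e] at h1
  refine h1.congr fun n => ?_
  congr 2
  unfold cBS
  congr 1
  ext I
  simp only [Finset.mem_filter]
  refine and_congr_right fun _ => ?_
  rw [tr_eq_iff hT, tr_eq_iff ha]
  simp only [Finset.mem_union]
  constructor
  · rintro ⟨h2, h3⟩
    exact ⟨⟨fun p hp => h2 p (Or.inl hp), fun p hp => h3 p (Or.inl hp)⟩,
      fun p hp => h2 p (Or.inr hp), fun p hp => h3 p (Or.inr hp)⟩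
  · rintro ⟨⟨h2, h3⟩, h4, h5⟩
    exact ⟨fun p hp => hp.elim (h2 p) (h4 p), fun p hp => hp.elim (h3 p) (h5 p)⟩

/-- density of a type -/
theorem count_ty_tendsto {E T : Finset (Ideal (𝓞 K))} (hE : IsE2 E) (hT : T ⊆ E) :
    Tendsto (fun n : ℕ => (((Th K n).filter (fun I => tr E I = T)).card : ℝ) / n) atTop
      (𝓝 (kap K / 2 ^ E.card)) := by
  have h := count_type_tendsto (P := ∅) (a := ∅) hE (by simp) hT (Finset.Subset.refl _)
  have e : mu pr (∅ : Finset (Ideal (𝓞 K))) ∅ = 1 := by simp [mu]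
  rw [e, mul_one] at h
  refine h.congr fun n => ?_
  congr 3
  ext I
  have h0 : tr (∅ : Finset (Ideal (𝓞 K))) I = ∅ := by simp [tr]
  rw [Finset.mem_filter, Finset.mem_filter, h0]
  simp

end

end Pool.Agent.Helper3.CF
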