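import Pool.Agent.Helper3.CF.Basic

set_option autoImplicit false

/-!
# Lower bound for the number of ideals coprime to a given finite set of primes
-/

open Finset Filter Topology NumberField
open scoped Classical

namespace Pool.Agent.Helper3.CF

noncomputable section

variable {K : Type*} [Field K] [NumberField K]

/-- dyadic size of the norm -/
def lg (p : Ideal (𝓞 K)) : ℕ := Nat.log 2 (Ideal.absNorm p)

/-- weight of a prime -/
def rho (p : Ideal (𝓞 K)) : ℝ := (3 / 4 : ℝ) ^ lg p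

theorem lg_pos {p : Ideal (𝓞 K)} (hp : Prime p) : 1 ≤ lg p :=
  Nat.log_pos (by norm_num) (prime_norm hp)

theorem pow_lg_le {p : Ideal (𝓞 K)} (hp : p ≠ ⊥) : 2 ^ lg p ≤ Ideal.absNorm p :=
  Nat.pow_log_le_self 2 (by have := norm_pos hp; omega)

theorem lt_pow_lg (p : Ideal (𝓞 K)) : Ideal.absNorm p < 2 ^ (lg p + 1) :=
  Nat.lt_pow_succ_log_self (by norm_num) _

theorem rho_pos (p : Ideal (𝓞 K)) : 0 < rho p := by unfold rho; positivity

theorem rho_le {p : Ideal (𝓞 K)} (hp : Prime p) : rho p ≤ 3 / 4 := by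
  unfold rho
  calc (3 / 4 : ℝ) ^ lg p ≤ (3 / 4) ^ 1 := pow_le_pow_of_le_one (by norm_num) (by norm_num) (lg_pos hp)
    _ = 3 / 4 := pow_one _

/-- number of ideals of norm `≤ n` divisible by no member of `S` -/
def JS (S : Finset (Ideal (𝓞 K))) (n : ℕ) : ℕ :=
  ((Th K n).filter (fun I => ∀ p ∈ S, ¬ p ∣ I)).card

theorem JS_empty (n : ℕ) : JS (∅ : Finset (Ideal (𝓞 K))) n = J K n := by
  simp [JS, J]

theorem JS_le (S : Finset (Ideal (𝓞 K))) (n : ℕ) : JS S n ≤ J K n :=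
  Finset.card_le_card (Finset.filter_subset _ _)

theorem JS_mono (S : Finset (Ideal (𝓞 K))) {m n : ℕ} (h : m ≤ n) : JS S m ≤ JS S n :=
  Finset.card_le_card (Finset.filter_subset_filter _ (Th_mono h))

theorem JS_zero (S : Finset (Ideal (𝓞 K))) : JS S 0 = 0 := by
  have := JS_le S 0
  rw [J_zero] at this
  omega

theorem JS_insert {S : Finset (Ideal (𝓞 K))} {q : Ideal (𝓞 K)} (hS : ∀ p ∈ S, Prime p)
    (hq : Prime q) (hqS : q ∉ S) (n : ℕ) :
    JS S n = JS (insert q S) n + JS S (n / Ideal.absNorm q) := by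
  have h1 : JS S (n / Ideal.absNorm q)
      = ((Th K n).filter (fun I => q ∣ I ∧ ∀ p ∈ S, ¬ p ∣ I)).card := by
    have h0 := card_dvd hq n (fun I => ∀ p ∈ S, ¬ p ∣ I)
    rw [JS]
    refine Eq.trans ?_ (h0.symm.trans ?_)
    · congr 1
      ext I
      simp only [Finset.mem_filter]
      refine and_congr_right fun _ => forall₂_congr fun p hp => ?_
      rw [dvd_mul_prime (hS p hp) hq (fun h => hqS (h ▸ hp))]
    · congr
  rw [h1, JS, JS, ← Finset.card_union_of_disjoint]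
  · congr 1
    ext I
    simp only [Finset.mem_filter, Finset.mem_union, Finset.mem_insert, forall_eq_or_imp]
    tauto
  · rw [Finset.disjoint_left]
    intro I h2 h3
    simp only [Finset.mem_filter, Finset.mem_insert, forall_eq_or_imp] at h2 h3
    exact h2.2.1 h3.2.1

/-- the weighted dyadic sum -/
def V (S : Finset (Ideal (𝓞 K))) (n : ℕ) : ℝ :=
  ∑ i ∈ range (n + 1), (4 / 3 : ℝ) ^ i * JS S (n / 2 ^ i)

theorem V_insert {S : Finset (Ideal (𝓞 K))} {q : Ideal (𝓞 K)} (hS : ∀ p ∈ S, Prime p)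
    (hq : Prime q) (hqS : q ∉ S) (n : ℕ) :
    (1 - rho q) * V S n ≤ V (insert q S) n := by
  have h1 : V S n = V (insert q S) n
      + ∑ i ∈ range (n + 1), (4 / 3 : ℝ) ^ i * JS S (n / 2 ^ i / Ideal.absNorm q) := by
    unfold V
    rw [← Finset.sum_add_distrib]
    refine Finset.sum_congr rfl fun i _ => ?_
    rw [JS_insert hS hq hqS (n / 2 ^ i)]
    push_cast; ring
  have h2 : ∑ i ∈ range (n + 1), (4 / 3 : ℝ) ^ i * JS S (n / 2 ^ i / Ideal.absNorm q)
      ≤ rho q * V S n := by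
    set m := lg q with hm
    have h3 : ∀ i ∈ range (n + 1), (4 / 3 : ℝ) ^ i * JS S (n / 2 ^ i / Ideal.absNorm q)
        ≤ (3 / 4 : ℝ) ^ m * ((4 / 3 : ℝ) ^ (m + i) * JS S (n / 2 ^ (m + i))) := by
      intro i _
      have h4 : JS S (n / 2 ^ i / Ideal.absNorm q) ≤ JS S (n / 2 ^ (m + i)) := by
        apply JS_mono
        rw [Nat.add_comm m i, pow_add, ← Nat.div_div_eq_div_mul]
        exact Nat.div_le_div_left (pow_lg_le hq.ne_zero) (by positivity)
      have h5 : (3 / 4 : ℝ) ^ m * ((4 / 3 : ℝ) ^ (m + i) * JS S (n / 2 ^ (m + i)))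
          = (4 / 3 : ℝ) ^ i * JS S (n / 2 ^ (m + i)) := by
        rw [pow_add, ← mul_assoc, ← mul_assoc, ← mul_pow]
        norm_num
      rw [h5]
      exact mul_le_mul_of_nonneg_left (by exact_mod_cast h4) (by positivity)
    refine (Finset.sum_le_sum h3).trans ?_
    rw [← Finset.mul_sum]
    unfold rho V
    refine mul_le_mul_of_nonneg_left ?_ (by positivity)
    have h6 : ∑ i ∈ range (n + 1), ((4 / 3 : ℝ) ^ (m + i) * JS S (n / 2 ^ (m + i)))
        ≤ ∑ j ∈ range (m + (n + 1)), (4 / 3 : ℝ) ^ j * JS S (n / 2 ^ j) := by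
      rw [Finset.sum_range_add _ m (n + 1)]
      have : 0 ≤ ∑ j ∈ range m, (4 / 3 : ℝ) ^ j * (JS S (n / 2 ^ j) : ℝ) :=
        Finset.sum_nonneg fun j _ => by positivity
      linarith
    refine h6.trans (le_of_eq ?_)
    symm
    refine Finset.sum_subset (Finset.range_subset_range.2 (by omega)) fun j hj hj' => ?_
    have h7 : n / 2 ^ j = 0 := by
      apply Nat.div_eq_of_lt
      have : n < j := by simpa using hj'
      exact this.trans Nat.lt_two_pow_self
    rw [h7, JS_zero]; simp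
  have h3 : (1 - rho q) * V S n = V S n - rho q * V S n := by ring
  rw [h3]; linarith

theorem V_lower (S : Finset (Ideal (𝓞 K))) (hS : ∀ p ∈ S, Prime p) (n : ℕ) :
    (∏ q ∈ S, (1 - rho q)) * J K n ≤ V S n := by
  induction S using Finset.induction_on with
  | empty =>
    simp only [Finset.prod_empty, one_mul]
    unfold V
    rw [Finset.sum_range_succ']
    have : 0 ≤ ∑ i ∈ range n, (4 / 3 : ℝ) ^ (i + 1) * (JS (∅ : Finset (Ideal (𝓞 K))) (n / 2 ^ (i + 1)) : ℝ) :=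
      Finset.sum_nonneg fun j _ => by positivity
    simp only [pow_zero, Nat.div_one, one_mul, JS_empty] at this ⊢
    linarith
  | insert q S hq ih =>
    rw [Finset.prod_insert hq, mul_assoc]
    have hqp := hS q (mem_insert_self _ _)
    refine le_trans ?_ (V_insert (fun p hp => hS p (mem_insert_of_mem hp)) hqp hq n)
    refine mul_le_mul_of_nonneg_left (ih (fun p hp => hS p (mem_insert_of_mem hp))) ?_
    have := rho_le hqp
    linarith

theorem V_upper {C : ℝ} (hC : ∀ n : ℕ, (J K n : ℝ) ≤ C * n) (hC0 : 0 ≤ C)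
    (S : Finset (Ideal (𝓞 K))) (n M : ℕ) :
    V S n ≤ 3 * (4 / 3 : ℝ) ^ M * JS S n + 3 * C * n * (2 / 3 : ℝ) ^ M := by
  have h1 : ∀ i ∈ range (n + 1), (4 / 3 : ℝ) ^ i * (JS S (n / 2 ^ i) : ℝ)
      ≤ (if i < M then (4 / 3 : ℝ) ^ i * JS S n else 0)
        + (if i < M then 0 else (2 / 3 : ℝ) ^ i * (C * n)) := by
    intro i _
    split_ifs with h
    · rw [add_zero]
      refine mul_le_mul_of_nonneg_left ?_ (by positivity)
      exact_mod_cast JS_mono S (Nat.div_le_self _ _)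
    · rw [zero_add]
      have h2 : (JS S (n / 2 ^ i) : ℝ) ≤ C * (n / 2 ^ i) := by
        refine le_trans (by exact_mod_cast JS_le S _) ((hC _).trans ?_)
        refine mul_le_mul_of_nonneg_left ?_ hC0
        have := @Nat.cast_div_le ℝ _ _ _ n (2 ^ i)
        simpa using this
      calc (4 / 3 : ℝ) ^ i * (JS S (n / 2 ^ i) : ℝ) ≤ (4 / 3 : ℝ) ^ i * (C * (n / 2 ^ i)) :=
            mul_le_mul_of_nonneg_left h2 (by positivity)
        _ = ((4 / 3 : ℝ) ^ i / 2 ^ i) * (C * n) := by ring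
        _ = (2 / 3 : ℝ) ^ i * (C * n) := by rw [← div_pow]; norm_num
  refine (Finset.sum_le_sum h1).trans ?_
  rw [Finset.sum_add_distrib]
  refine add_le_add ?_ ?_
  · rw [← Finset.sum_filter, ← Finset.sum_mul]
    refine mul_le_mul_of_nonneg_right ?_ (Nat.cast_nonneg _)
    have h3 : ∑ i ∈ (range (n + 1)).filter (fun i => i < M), (4 / 3 : ℝ) ^ i
        ≤ ∑ i ∈ range M, (4 / 3 : ℝ) ^ i := by
      refine Finset.sum_le_sum_of_subset_of_nonneg ?_ (fun _ _ _ => by positivity)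
      intro i hi
      simp only [Finset.mem_filter, Finset.mem_range] at hi ⊢
      exact hi.2
    refine h3.trans ?_
    rw [geom_sum_eq (by norm_num)]
    have : (0:ℝ) < (4 / 3) ^ M := by positivity
    have h4 : ((4 / 3 : ℝ) ^ M - 1) / (4 / 3 - 1) = 3 * ((4 / 3) ^ M - 1) := by ring
    rw [h4]; linarith
  · have h5 : ∑ i ∈ range (n + 1), (if i < M then (0:ℝ) else (2 / 3 : ℝ) ^ i * (C * n))
        = (∑ i ∈ Ico M (n + 1), (2 / 3 : ℝ) ^ i) * (C * n) := by
      rw [Finset.sum_mul]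
      have : ∀ i, (if i < M then (0:ℝ) else (2 / 3 : ℝ) ^ i * (C * n))
          = if M ≤ i then (2 / 3 : ℝ) ^ i * (C * n) else 0 := by
        intro i
        by_cases h : i < M
        · rw [if_pos h, if_neg (by omega)]
        · rw [if_neg h, if_pos (by omega)]
      simp_rw [this]
      rw [← Finset.sum_filter]
      refine Finset.sum_congr ?_ fun _ _ => rfl
      ext i
      simp only [Finset.mem_filter, Finset.mem_range, Finset.mem_Ico]
      omega
    rw [h5]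
    have h6 : ∑ i ∈ Ico M (n + 1), (2 / 3 : ℝ) ^ i ≤ (2 / 3 : ℝ) ^ M / (1 - 2 / 3) :=
      geom_sum_Ico_le_of_lt_one (by norm_num) (by norm_num)
    have h7 : (0:ℝ) ≤ C * n := by positivity
    calc (∑ i ∈ Ico M (n + 1), (2 / 3 : ℝ) ^ i) * (C * n) ≤ ((2 / 3 : ℝ) ^ M / (1 - 2 / 3)) * (C * n) :=
          mul_le_mul_of_nonneg_right h6 h7
      _ = _ := by ring

/-- inverse Euler-type factor -/
def GG (S : Finset (Ideal (𝓞 K))) : ℝ := ∏ q ∈ S, (1 - rho q)⁻¹

theorem one_le_fac {q : Ideal (𝓞 K)} (hq : Prime q) : 1 ≤ (1 - rho q)⁻¹ := by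
  have h1 := rho_pos q
  have h2 := rho_le hq
  rw [one_le_inv₀ (by linarith)]
  linarith

theorem fac_le {q : Ideal (𝓞 K)} (hq : Prime q) : (1 - rho q)⁻¹ ≤ 4 := by
  have h2 := rho_le hq
  rw [inv_le_comm₀ (by linarith) (by norm_num)]
  linarith

theorem one_le_GG {S : Finset (Ideal (𝓞 K))} (hS : ∀ p ∈ S, Prime p) : 1 ≤ GG S := by
  unfold GG
  calc (1:ℝ) = ∏ _q ∈ S, (1:ℝ) := by simp
    _ ≤ _ := Finset.prod_le_prod (fun _ _ => zero_le_one) fun q hq => one_le_fac (hS q hq)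

/-- **Lower bound**: `J_S(n) ≥ c' n / G_S²`. -/
theorem JS_lower : ∃ c' : ℝ, 0 < c' ∧ ∀ (S : Finset (Ideal (𝓞 K))), (∀ p ∈ S, Prime p) → ∀ n : ℕ,
    c' * n / GG S ^ 2 ≤ JS S n := by
  obtain ⟨c, C, hc, hC1, hC, hcn⟩ := J_bounds (K := K)
  refine ⟨min c 1 ^ 2 / (54 * C), by have : 0 < min c 1 := lt_min hc one_pos
                                     positivity, fun S hS n => ?_⟩
  have hG := one_le_GG hS
  set G := GG S with hGdef
  set c1 := min c 1 with hc1
  have hc1pos : 0 < c1 := lt_min hc one_pos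
  have hc1le : c1 ≤ 1 := min_le_right _ _
  have hCpos : 0 < C := by linarith
  -- Z = 6 C G / c1
  set Z := 6 * C * G / c1 with hZ
  have hZ1 : 1 ≤ Z := by
    rw [hZ, le_div_iff₀ hc1pos]
    nlinarith
  obtain ⟨M, hM1, hM2⟩ : ∃ M : ℕ, Z ≤ (3 / 2 : ℝ) ^ M ∧ (3 / 2 : ℝ) ^ M ≤ 3 / 2 * Z := by
    obtain ⟨M, hM1, hM2⟩ := exists_nat_pow_near hZ1 (by norm_num : (1:ℝ) < 3 / 2)
    refine ⟨M + 1, hM2.le, ?_⟩
    rw [pow_succ]; linarith
  have hV1 := V_lower S hS n
  have hV2 := V_upper hC hCpos.le S n M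
  have hGinv : (∏ q ∈ S, (1 - rho q)) = G⁻¹ := by
    rw [hGdef, GG, ← Finset.prod_inv_distrib]
    simp
  rw [hGinv] at hV1
  have hn0 : (0:ℝ) ≤ n := Nat.cast_nonneg n
  have hJ : c1 * n ≤ J K n := (mul_le_mul_of_nonneg_right (min_le_left _ _) hn0).trans (hcn n)
  have hGpos : 0 < G := by linarith
  have h1 : c1 * n / G ≤ V S n := by
    refine le_trans ?_ hV1
    rw [div_eq_inv_mul]
    exact mul_le_mul_of_nonneg_left hJ (by positivity)
  -- the second term
  have hZpos : 0 < Z := by linarith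
  have h2 : (2 / 3 : ℝ) ^ M ≤ Z⁻¹ := by
    have : (2 / 3 : ℝ) ^ M = ((3 / 2 : ℝ) ^ M)⁻¹ := by rw [← inv_pow]; norm_num
    rw [this]
    exact inv_anti₀ hZpos hM1
  have h3 : 3 * C * n * (2 / 3 : ℝ) ^ M ≤ c1 * n / (2 * G) := by
    calc 3 * C * n * (2 / 3 : ℝ) ^ M ≤ 3 * C * n * Z⁻¹ :=
          mul_le_mul_of_nonneg_left h2 (by positivity)
      _ = c1 * n / (2 * G) := by rw [hZ]; field_simp; ring
  have h4 : (4 / 3 : ℝ) ^ M ≤ 3 / 2 * Z :=
    le_trans (pow_le_pow_left₀ (by norm_num) (by norm_num) M) hM2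
  have h5 : 3 * (4 / 3 : ℝ) ^ M * JS S n ≤ 9 / 2 * Z * JS S n := by
    refine mul_le_mul_of_nonneg_right ?_ (Nat.cast_nonneg _)
    linarith
  have h6 : c1 * n / (2 * G) ≤ 9 / 2 * Z * JS S n := by
    have : c1 * n / G = c1 * n / (2 * G) + c1 * n / (2 * G) := by field_simp; ring
    linarith
  have h7 : c1 ^ 2 / (54 * C) * n / G ^ 2 = (c1 * n / (2 * G)) / (9 / 2 * Z) := by
    rw [hZ]; field_simp; ring
  rw [h7, div_le_iff₀ (by positivity)]
  linarith

end

end Pool.Agent.Helper3.CF
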