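import Pool.Agent.Helper3.CF.Prop2

set_option autoImplicit false

/-!
# Classification of the extremal coprime-free sets (finite set form)
-/

open Finset Filter Topology NumberField
open scoped Classical

namespace Pool.Agent.Helper3.CF

noncomputable section

set_option linter.unusedSectionVars false

variable {K : Type*} [Field K] [NumberField K]

/-- coprime-free -/
def CFr (A : Finset (Ideal (𝓞 K))) : Prop :=
  ∀ I ∈ A, ∀ J ∈ A, I ≠ J → ∃ p, Prime p ∧ p ∣ I ∧ p ∣ J

/-- the family of ideals whose set of norm-two prime divisors lies in `H` -/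
def fam (E : Finset (Ideal (𝓞 K))) (H : Finset (Finset (Ideal (𝓞 K)))) (n : ℕ) :
    Finset (Ideal (𝓞 K)) := (Th K n).filter (fun I => tr E I ∈ H)

/-- maximal intersecting families of subsets of `E` -/
structure MaxI (E : Finset (Ideal (𝓞 K))) (H : Finset (Finset (Ideal (𝓞 K)))) : Prop where
  sub : ∀ S ∈ H, S ⊆ E
  inter : ∀ S ∈ H, ∀ T ∈ H, (S ∩ T).Nonempty
  full : ∀ S ⊆ E, S ∈ H ∨ E \ S ∈ H

theorem fam_CFr {E : Finset (Ideal (𝓞 K))} (hE : IsE2 E) {H : Finset (Finset (Ideal (𝓞 K)))}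
    (hH : MaxI E H) (n : ℕ) : CFr (fam E H n) := by
  intro I hI J hJ _
  obtain ⟨p, hp⟩ := hH.inter _ (Finset.mem_filter.1 hI).2 _ (Finset.mem_filter.1 hJ).2
  rw [Finset.mem_inter, mem_tr, mem_tr] at hp
  exact ⟨p, ((hE p).1 hp.1.1).1, hp.1.2, hp.2.2⟩

theorem fam_sub (E : Finset (Ideal (𝓞 K))) (H : Finset (Finset (Ideal (𝓞 K)))) (n : ℕ) :
    fam E H n ⊆ Th K n := Finset.filter_subset _ _

/-- a star -/
theorem star_MaxI {E : Finset (Ideal (𝓞 K))} {e : Ideal (𝓞 K)} (he : e ∈ E) :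
    MaxI E (E.powerset.filter (fun S => e ∈ S)) where
  sub := fun S hS => Finset.mem_powerset.1 (Finset.mem_filter.1 hS).1
  inter := fun S hS T hT => ⟨e, Finset.mem_inter.2 ⟨(Finset.mem_filter.1 hS).2, (Finset.mem_filter.1 hT).2⟩⟩
  full := fun S hS => by
    by_cases h : e ∈ S
    · exact Or.inl (Finset.mem_filter.2 ⟨Finset.mem_powerset.2 hS, h⟩)
    · exact Or.inr (Finset.mem_filter.2 ⟨Finset.mem_powerset.2 Finset.sdiff_subset,
        Finset.mem_sdiff.2 ⟨he, h⟩⟩)

/-- in a maximal intersecting family exactly one of `S`, `E \ S` belongs -/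
theorem MaxI.compl {E : Finset (Ideal (𝓞 K))} {H : Finset (Finset (Ideal (𝓞 K)))} (hH : MaxI E H)
    {S : Finset (Ideal (𝓞 K))} (hS : S ⊆ E) : E \ S ∈ H ↔ S ∉ H := by
  constructor
  · intro h1 h2
    obtain ⟨p, hp⟩ := hH.inter _ h1 _ h2
    rw [Finset.mem_inter, Finset.mem_sdiff] at hp
    exact hp.1.2 hp.2
  · intro h
    rcases hH.full S hS with h1 | h1
    · exact absurd h1 h
    · exact h1

theorem card_eq_sum_types {E : Finset (Ideal (𝓞 K))} (A : Finset (Ideal (𝓞 K))) :
    A.card = ∑ T ∈ E.powerset, (A.filter (fun I => tr E I = T)).card :=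
  Finset.card_eq_sum_card_fiberwise (fun z _ => Finset.mem_powerset.2 (tr_sub E z))

theorem sum_compl {E : Finset (Ideal (𝓞 K))} (f : Finset (Ideal (𝓞 K)) → ℝ) :
    ∑ T ∈ E.powerset, f (E \ T) = ∑ T ∈ E.powerset, f T := by
  refine Finset.sum_nbij' (fun T => E \ T) (fun T => E \ T) ?_ ?_ ?_ ?_ ?_
  · intro T _; exact Finset.mem_powerset.2 Finset.sdiff_subset
  · intro T _; exact Finset.mem_powerset.2 Finset.sdiff_subset
  · intro T hT; exact Finset.sdiff_sdiff_eq_self (Finset.mem_powerset.1 hT)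
  · intro T hT; exact Finset.sdiff_sdiff_eq_self (Finset.mem_powerset.1 hT)
  · intro T _; rfl

theorem sum_over_H {E : Finset (Ideal (𝓞 K))} {H : Finset (Finset (Ideal (𝓞 K)))} (hH : MaxI E H)
    (f : Finset (Ideal (𝓞 K)) → ℕ) :
    ∑ T ∈ E.powerset, f T = ∑ T ∈ H, (f T + f (E \ T)) := by
  have h1 : E.powerset.filter (fun T => T ∈ H) = H := by
    ext T
    rw [Finset.mem_filter, Finset.mem_powerset]
    exact ⟨fun h => h.2, fun h => ⟨hH.sub T h, h⟩⟩
  rw [← Finset.sum_filter_add_sum_filter_not E.powerset (fun T => T ∈ H) f, h1,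
    Finset.sum_add_distrib]
  congr 1
  symm
  refine Finset.sum_nbij' (fun T => E \ T) (fun T => E \ T) ?_ ?_ ?_ ?_ ?_
  · intro T hT
    rw [Finset.mem_filter, Finset.mem_powerset]
    refine ⟨Finset.sdiff_subset, fun h => ?_⟩
    exact (hH.compl (hH.sub T hT)).1 h hT
  · intro T hT
    rw [Finset.mem_filter, Finset.mem_powerset] at hT
    exact (hH.compl hT.1).2 hT.2
  · intro T hT; exact Finset.sdiff_sdiff_eq_self (hH.sub T hT)
  · intro T hT
    exact Finset.sdiff_sdiff_eq_self (Finset.mem_powerset.1 (Finset.mem_filter.1 hT).1)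
  · intro T _; rfl

theorem exists_prime_dvd {I : Ideal (𝓞 K)} (h0 : I ≠ ⊥) (h1 : I ≠ 1) : ∃ p, Prime p ∧ p ∣ I := by
  have h2 : ¬ IsUnit I := by rwa [Ideal.isUnit_iff, ← Ideal.one_eq_top]
  obtain ⟨p, hp, hpI⟩ := WfDvdMonoid.exists_irreducible_factor h2 h0
  exact ⟨p, UniqueFactorizationMonoid.irreducible_iff_prime.1 hp, hpI⟩

theorem not_prime_dvd_one {p : Ideal (𝓞 K)} (hp : Prime p) : ¬ p ∣ 1 := fun h =>
  hp.not_isUnit (isUnit_of_dvd_one h)

/-- **Main theorem**: extremal sets are juntas on the primes of norm two. -/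
theorem main_finset {E : Finset (Ideal (𝓞 K))} (hE : IsE2 E) (hne : E.Nonempty) :
    ∀ᶠ n : ℕ in atTop, ∀ A ⊆ Th K n, CFr A → (∀ B ⊆ Th K n, CFr B → B.card ≤ A.card) →
      ∃ H, MaxI E H ∧ A = fam E H n := by
  obtain ⟨δ, hδ, h2⟩ := prop2 hE
  set k := E.card with hk
  set κ := kap K / 2 ^ k with hκ
  have hκ0 : 0 < κ := div_pos kap_pos (by positivity)
  -- choice of ε
  obtain ⟨ε, hε0, hε1, hε2⟩ : ∃ ε : ℝ, 0 < ε ∧ 2 ^ (k + 1) * ε ≤ 1 / 32 ∧
      2 ^ (k + 3) * ε * κ ≤ δ := by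
    refine ⟨min (1 / 32 / 2 ^ (k + 1)) (δ / (2 ^ (k + 3) * κ)), by positivity, ?_, ?_⟩
    · calc (2:ℝ) ^ (k + 1) * min (1 / 32 / 2 ^ (k + 1)) (δ / (2 ^ (k + 3) * κ))
          ≤ 2 ^ (k + 1) * (1 / 32 / 2 ^ (k + 1)) :=
            mul_le_mul_of_nonneg_left (min_le_left _ _) (by positivity)
        _ = 1 / 32 := by field_simp
    · calc (2:ℝ) ^ (k + 3) * min (1 / 32 / 2 ^ (k + 1)) (δ / (2 ^ (k + 3) * κ)) * κ
          ≤ 2 ^ (k + 3) * (δ / (2 ^ (k + 3) * κ)) * κ := by
            refine mul_le_mul_of_nonneg_right ?_ hκ0.le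
            exact mul_le_mul_of_nonneg_left (min_le_right _ _) (by positivity)
        _ = δ := by field_simp
  have h1 := prop1 hE hε0
  rw [← hk, ← hκ] at h1
  -- type counts
  have hty : ∀ᶠ n : ℕ in atTop, ∀ T ∈ E.powerset,
      (1 - ε) * κ < (((Th K n).filter (fun I => tr E I = T)).card : ℝ) / n := by
    rw [eventually_all_finset]
    intro T hT
    have h6 := count_ty_tendsto hE (Finset.mem_powerset.1 hT)
    refine h6.eventually (lt_mem_nhds ?_)
    nlinarith
  have hbig : ∀ᶠ n : ℕ in atTop, 2 / κ ≤ (n : ℝ) :=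
    tendsto_natCast_atTop_atTop.eventually_ge_atTop _
  filter_upwards [h1, hty, eventually_ge_atTop (2 ^ k), hbig] with n hp1 htyn hnk hnbig A hA hACF hAmax
  have hn1 : 1 ≤ n := le_trans Nat.one_le_two_pow hnk
  have hn0 : (0:ℝ) < n := by exact_mod_cast hn1
  have hκn : 0 < κ * n := by positivity
  have hk1 : (1:ℝ) ≤ 2 ^ k := one_le_pow₀ (by norm_num)
  have hpow1 : (2:ℝ) ^ (k + 1) = 2 * 2 ^ k := by rw [pow_succ]; ring
  have hpow3 : (2:ℝ) ^ (k + 3) = 8 * 2 ^ k := by rw [pow_add]; norm_num [mul_comm]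
  have hεsmall : ε ≤ 1 / 64 := by
    rw [hpow1] at hε1
    nlinarith
  set AT : Finset (Ideal (𝓞 K)) → Finset (Ideal (𝓞 K)) := fun T => A.filter (fun I => tr E I = T)
    with hAT
  have hATsub : ∀ T, AT T ⊆ Th K n := fun T => (Finset.filter_subset _ _).trans hA
  have hATt : ∀ T, ∀ x ∈ AT T, tr E x = T := fun T x hx => (Finset.mem_filter.1 hx).2
  have hATA : ∀ T, ∀ x ∈ AT T, x ∈ A := fun T x hx => (Finset.mem_filter.1 hx).1
  set al : Finset (Ideal (𝓞 K)) → ℝ := fun T => ((AT T).card : ℝ) / (κ * n) with hal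
  have hal0 : ∀ T, 0 ≤ al T := fun T => by rw [hal]; positivity
  -- lower bound for the size of an intersecting family
  have hTh : ∀ T ⊆ E, (1 - ε) * (κ * n) ≤ (((Th K n).filter (fun I => tr E I = T)).card : ℝ) := by
    intro T hT
    have := htyn T (Finset.mem_powerset.2 hT)
    rw [lt_div_iff₀ hn0] at this
    linarith
  -- |A| is large
  obtain ⟨e, he⟩ := hne
  have hAcard : (A.card : ℝ) = (∑ T ∈ E.powerset, al T) * (κ * n) := by
    have h3 : A.card = ∑ T ∈ E.powerset, (AT T).card := card_eq_sum_types A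
    rw [h3, Nat.cast_sum, Finset.sum_mul]
    refine Finset.sum_congr rfl fun T _ => ?_
    simp only [hal]
    field_simp
  have hfamcard : ∀ H, MaxI E H → ((fam E H n).card : ℝ)
      = ∑ T ∈ H, (((Th K n).filter (fun I => tr E I = T)).card : ℝ) := by
    intro H hH
    have h3 : (fam E H n).card = ∑ T ∈ H, ((fam E H n).filter (fun I => tr E I = T)).card :=
      Finset.card_eq_sum_card_fiberwise (fun z hz => (Finset.mem_filter.1 hz).2)
    rw [h3, Nat.cast_sum]
    refine Finset.sum_congr rfl fun T hT => ?_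
    congr 2
    ext I
    simp only [fam, Finset.mem_filter]
    constructor
    · rintro ⟨⟨h4, _⟩, h5⟩; exact ⟨h4, h5⟩
    · rintro ⟨h4, h5⟩; exact ⟨⟨h4, h5 ▸ hT⟩, h5⟩
  have hHcard : ∀ H, MaxI E H → 2 * (H.card : ℝ) = 2 ^ k := by
    intro H hH
    have h3 := sum_over_H hH (fun _ => 1)
    simp only [Finset.sum_const, smul_eq_mul, mul_one, Finset.card_powerset] at h3
    have h4 : (2:ℝ) ^ k = (H.card : ℝ) * (1 + 1) := by
      rw [hk]; exact_mod_cast h3
    linarith
  have hstar : 2 ^ k * ((1 - ε) * (κ * n)) ≤ 2 * (A.card : ℝ) := by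
    set H0 := E.powerset.filter (fun S => e ∈ S) with hH0
    have hM := star_MaxI (K := K) he
    have h3 := hAmax _ (fam_sub E H0 n) (fam_CFr hE hM n)
    have h4 : ((fam E H0 n).card : ℝ) ≤ A.card := by exact_mod_cast h3
    rw [hfamcard H0 hM] at h4
    have h5 : (H0.card : ℝ) * ((1 - ε) * (κ * n))
        ≤ ∑ T ∈ H0, (((Th K n).filter (fun I => tr E I = T)).card : ℝ) := by
      rw [← nsmul_eq_mul, ← Finset.sum_const]
      exact Finset.sum_le_sum fun T hT => hTh T (hM.sub T hT)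
    have h6 := hHcard H0 hM
    rw [← h6]
    nlinarith
  -- `1 ∉ A`
  have hA1 : (1 : Ideal (𝓞 K)) ∉ A := by
    intro h1A
    have hc : 1 < A.card := by
      have h3 : (1:ℝ) < A.card := by
        have h4 : 2 ≤ κ * n := by
          rw [div_le_iff₀ hκ0] at hnbig; linarith
        have h5 : (3:ℝ) / 2 ≤ (1 - ε) * (κ * n) := by nlinarith
        have h6 : 2 * ((1 - ε) * (κ * n)) ≤ 2 ^ k * ((1 - ε) * (κ * n)) := by
          refine mul_le_mul_of_nonneg_right ?_ (by linarith)
          have : 1 ≤ k := Finset.card_pos.2 ⟨e, he⟩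
          calc (2:ℝ) = 2 ^ 1 := (pow_one _).symm
            _ ≤ 2 ^ k := pow_le_pow_right₀ (by norm_num) this
        linarith
      exact_mod_cast h3
    obtain ⟨J, hJ, hJ1⟩ := Finset.exists_mem_ne hc 1
    obtain ⟨p, hp, hp1, _⟩ := hACF 1 h1A J hJ hJ1.symm
    exact not_prime_dvd_one hp hp1
  -- cross pairs
  have hcross : ∀ T T', ∀ x ∈ AT T, ∀ y ∈ AT T', ∃ p, Prime p ∧ p ∣ x ∧ p ∣ y := by
    intro T T' x hx y hy
    by_cases hxy : x = y
    · subst hxy
      have hx0 := (mem_Th.1 (hATsub T hx)).1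
      have hx1 : x ≠ 1 := fun h => hA1 (h ▸ hATA T x hx)
      obtain ⟨p, hp, hpx⟩ := exists_prime_dvd hx0 hx1
      exact ⟨p, hp, hpx, hpx⟩
    · exact hACF x (hATA T x hx) y (hATA T' y hy) hxy
  have hpair : ∀ T ⊆ E, ∀ T' ⊆ E, Disjoint T T' → al T + al T' + 3 * (al T * al T') ≤ 1 + ε := by
    intro T hT T' hT' hd
    exact hp1 T hT T' hT' hd _ (hATsub T) _ (hATsub T') (hATt T) (hATt T') (hcross T T')
  -- all complementary pairs are nearly full
  have hs : ∀ T ⊆ E, 1 - 2 ^ (k + 1) * ε ≤ al T + al (E \ T) := by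
    intro T hT
    have h3 : ∑ S ∈ E.powerset, (al S + al (E \ S)) = 2 * ∑ S ∈ E.powerset, al S := by
      rw [Finset.sum_add_distrib, sum_compl al]; ring
    have h4 : 2 ^ k * (1 - ε) ≤ ∑ S ∈ E.powerset, (al S + al (E \ S)) := by
      rw [h3]
      rw [hAcard] at hstar
      have : (2 ^ k * (1 - ε)) * (κ * n) ≤ (2 * ∑ S ∈ E.powerset, al S) * (κ * n) := by linarith
      exact le_of_mul_le_mul_right this hκn
    have hTm : T ∈ E.powerset := Finset.mem_powerset.2 hT
    rw [← Finset.add_sum_erase _ _ hTm] at h4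
    have h5 : ∑ S ∈ E.powerset.erase T, (al S + al (E \ S)) ≤ (2 ^ k - 1) * (1 + ε) := by
      calc ∑ S ∈ E.powerset.erase T, (al S + al (E \ S)) ≤ ∑ _S ∈ E.powerset.erase T, (1 + ε) := by
            refine Finset.sum_le_sum fun S hS => ?_
            have hS' := Finset.mem_powerset.1 (Finset.mem_of_mem_erase hS)
            have := hpair S hS' (E \ S) Finset.sdiff_subset Finset.disjoint_sdiff
            have : 0 ≤ al S * al (E \ S) := mul_nonneg (hal0 _) (hal0 _)
            linarith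
        _ = (2 ^ k - 1) * (1 + ε) := by
            rw [Finset.sum_const, nsmul_eq_mul, Finset.card_erase_of_mem hTm, Finset.card_powerset,
              Nat.cast_sub Nat.one_le_two_pow]
            push_cast
            rw [hk]
    rw [hpow1]
    nlinarith
  have hprod : ∀ T ⊆ E, al T * al (E \ T) ≤ 2 ^ (k + 1) * ε := by
    intro T hT
    have h3 := hpair T hT (E \ T) Finset.sdiff_subset Finset.disjoint_sdiff
    have h4 := hs T hT
    rw [hpow1] at h4 ⊢
    nlinarith
  -- dichotomy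
  have hdich : ∀ T ⊆ E, 3 / 4 ≤ al T → al (E \ T) ≤ 2 ^ (k + 3) * ε := by
    intro T hT h3
    have h4 := hprod T hT
    have h5 : 3 / 4 * al (E \ T) ≤ al T * al (E \ T) := mul_le_mul_of_nonneg_right h3 (hal0 _)
    rw [hpow1] at h4
    rw [hpow3]
    have : 0 ≤ 2 ^ k * ε := by positivity
    linarith
  have hor : ∀ T ⊆ E, 3 / 4 ≤ al T ∨ 3 / 4 ≤ al (E \ T) := by
    intro T hT
    by_contra hcon
    push Not at hcon
    have h3 := hs T hT
    have h4 := hprod T hT
    -- both at least 1 - 1/32 - 3/4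
    have h5 : 7 / 32 ≤ al T := by linarith [hcon.2]
    have h6 : 7 / 32 ≤ al (E \ T) := by linarith [hcon.1]
    have h7 : (7 / 32 : ℝ) * (7 / 32) ≤ al T * al (E \ T) :=
      mul_le_mul h5 h6 (by norm_num) (hal0 _)
    linarith
  -- the family
  set H := E.powerset.filter (fun T => 3 / 4 ≤ al T) with hH
  have hMax : MaxI E H := by
    refine ⟨fun S hS => Finset.mem_powerset.1 (Finset.mem_filter.1 hS).1, ?_, ?_⟩
    · intro S hS T hT
      rw [hH, Finset.mem_filter, Finset.mem_powerset] at hS hT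
      by_contra hcon
      rw [Finset.not_nonempty_iff_eq_empty, ← Finset.disjoint_iff_inter_eq_empty] at hcon
      have h3 := hpair S hS.1 T hT.1 hcon
      have h4 : 0 ≤ al S * al T := mul_nonneg (hal0 _) (hal0 _)
      linarith [hS.2, hT.2]
    · intro S hS
      rcases hor S hS with h | h
      · exact Or.inl (Finset.mem_filter.2 ⟨Finset.mem_powerset.2 hS, h⟩)
      · exact Or.inr (Finset.mem_filter.2 ⟨Finset.mem_powerset.2 Finset.sdiff_subset, h⟩)
  refine ⟨H, hMax, ?_⟩
  have hdisjty : ∀ T, T ⊆ E → T ≠ E \ T := by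
    intro T hT h
    by_cases heT : e ∈ T
    · have := h ▸ heT
      rw [Finset.mem_sdiff] at this
      exact this.2 heT
    · have : e ∈ E \ T := Finset.mem_sdiff.2 ⟨he, heT⟩
      rw [← h] at this
      exact heT this
  -- comparison on each pair
  have hcmp : ∀ T ∈ H, (AT T).card + (AT (E \ T)).card
      ≤ ((Th K n).filter (fun I => tr E I = T)).card ∧
      ((AT (E \ T)).Nonempty → (AT T).card + (AT (E \ T)).card
        < ((Th K n).filter (fun I => tr E I = T)).card) := by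
    intro T hT
    have hTE := hMax.sub T hT
    have hT34 := (Finset.mem_filter.1 hT).2
    have hbase : (AT T).card ≤ ((Th K n).filter (fun I => tr E I = T)).card :=
      Finset.card_le_card fun I hI => Finset.mem_filter.2 ⟨hATsub T hI, hATt T I hI⟩
    have hstrict : (AT (E \ T)).Nonempty → (AT T).card + (AT (E \ T)).card
        < ((Th K n).filter (fun I => tr E I = T)).card := by
      intro hYne
      have hsm : ((AT (E \ T)).card : ℝ) ≤ δ * n := by
        have h3 := hdich T hTE hT34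
        have h4 : ((AT (E \ T)).card : ℝ) = al (E \ T) * (κ * n) := by
          simp only [hal]; field_simp
        rw [h4]
        calc al (E \ T) * (κ * n) ≤ (2 ^ (k + 3) * ε) * (κ * n) :=
              mul_le_mul_of_nonneg_right h3 hκn.le
          _ = (2 ^ (k + 3) * ε * κ) * n := by ring
          _ ≤ δ * n := mul_le_mul_of_nonneg_right hε2 hn0.le
      have h5 := h2 n hnk T hTE _ (hATsub (E \ T)) hYne (hATt (E \ T)) hsm
      set M := (Th K n).filter (fun I => tr E I = T ∧ ∃ y ∈ AT (E \ T), ∀ p, Prime p → p ∣ I → ¬ p ∣ y)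
        with hM
      have h6 : Disjoint (AT T) M := by
        rw [Finset.disjoint_left]
        intro I hI hIM
        obtain ⟨_, _, y, hy, hcop⟩ := Finset.mem_filter.1 hIM
        have hne' : I ≠ y := by
          rintro rfl
          exact hdisjty T hTE ((hATt T I hI).symm.trans (hATt (E \ T) I hy))
        obtain ⟨p, hp, hpI, hpy⟩ := hACF I (hATA T I hI) y (hATA (E \ T) y hy) hne'
        exact hcop p hp hpI hpy
      have h7 : (AT T ∪ M).card ≤ ((Th K n).filter (fun I => tr E I = T)).card := by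
        refine Finset.card_le_card fun I hI => ?_
        rcases Finset.mem_union.1 hI with hI | hI
        · exact Finset.mem_filter.2 ⟨hATsub T hI, hATt T I hI⟩
        · have h8 := Finset.mem_filter.1 hI
          exact Finset.mem_filter.2 ⟨h8.1, h8.2.1⟩
      rw [Finset.card_union_of_disjoint h6] at h7
      omega
    refine ⟨?_, hstrict⟩
    rcases Finset.eq_empty_or_nonempty (AT (E \ T)) with h | h
    · rw [h]; simpa using hbase
    · exact (hstrict h).le
  -- |A| ≤ |fam|, equality iff no small part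
  have hAsum : A.card = ∑ T ∈ H, ((AT T).card + (AT (E \ T)).card) := by
    rw [card_eq_sum_types (E := E) A]
    exact sum_over_H hMax (fun T => (AT T).card)
  have hfsum : (fam E H n).card = ∑ T ∈ H, ((Th K n).filter (fun I => tr E I = T)).card := by
    exact_mod_cast hfamcard H hMax
  have hge : (fam E H n).card ≤ A.card := hAmax _ (fam_sub E H n) (fam_CFr hE hMax n)
  have hempty : ∀ T ∈ H, AT (E \ T) = ∅ := by
    by_contra hcon
    push Not at hcon
    obtain ⟨T, hT, hTne⟩ := hcon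
    have h3 : A.card < (fam E H n).card := by
      rw [hAsum, hfsum]
      exact Finset.sum_lt_sum (fun S hS => (hcmp S hS).1)
        ⟨T, hT, (hcmp T hT).2 hTne⟩
    omega
  have hsub : A ⊆ fam E H n := by
    intro I hI
    refine Finset.mem_filter.2 ⟨hA hI, ?_⟩
    by_contra hcon
    have h3 : E \ tr E I ∈ H := (hMax.compl (tr_sub E I)).2 hcon
    have h4 := hempty _ h3
    rw [Finset.sdiff_sdiff_eq_self (tr_sub E I)] at h4
    have h5 : I ∈ AT (tr E I) := Finset.mem_filter.2 ⟨hI, rfl⟩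
    rw [h4] at h5
    exact absurd h5 (Finset.notMem_empty _)
  exact Finset.eq_of_subset_of_card_le hsub hge

/-- the classification as an equivalence -/
theorem classification {E : Finset (Ideal (𝓞 K))} (hE : IsE2 E) (hne : E.Nonempty) :
    ∀ᶠ n : ℕ in atTop, ∀ A : Finset (Ideal (𝓞 K)),
      (A ⊆ Th K n ∧ CFr A ∧ ∀ B ⊆ Th K n, CFr B → B.card ≤ A.card) ↔
      ∃ H, MaxI E H ∧ A = fam E H n ∧ ∀ H', MaxI E H' → (fam E H' n).card ≤ (fam E H n).card := by
  filter_upwards [main_finset hE hne] with n hn A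
  constructor
  · rintro ⟨hA, hACF, hAmax⟩
    obtain ⟨H, hH, rfl⟩ := hn A hA hACF hAmax
    exact ⟨H, hH, rfl, fun H' hH' => hAmax _ (fam_sub E H' n) (fam_CFr hE hH' n)⟩
  · rintro ⟨H, hH, rfl, hbest⟩
    refine ⟨fam_sub E H n, fam_CFr hE hH n, fun B hB hBCF => ?_⟩
    -- take an extremal set
    obtain ⟨C, hC, hCmax⟩ := Finset.exists_max_image ((Th K n).powerset.filter (fun C => CFr C))
      (fun C => C.card) ⟨B, Finset.mem_filter.2 ⟨Finset.mem_powerset.2 hB, hBCF⟩⟩
    rw [Finset.mem_filter, Finset.mem_powerset] at hC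
    have h3 : ∀ D ⊆ Th K n, CFr D → D.card ≤ C.card := fun D hD hDCF =>
      hCmax D (Finset.mem_filter.2 ⟨Finset.mem_powerset.2 hD, hDCF⟩)
    obtain ⟨H', hH', hC'⟩ := hn C hC.1 hC.2 h3
    have h4 := hbest H' hH'
    rw [← hC'] at h4
    exact (h3 B hB hBCF).trans h4

end

end Pool.Agent.Helper3.CF
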