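import Pool.Agent.Helper3.CF.Lower

set_option autoImplicit false

/-!
# Moment bounds
-/

open Finset Filter Topology NumberField
open scoped Classical

namespace Pool.Agent.Helper3.CF

noncomputable section

variable {K : Type*} [Field K] [NumberField K]

theorem filter_dvd_mul {S : Finset (Ideal (𝓞 K))} {q : Ideal (𝓞 K)} (hS : ∀ p ∈ S, Prime p)
    (hq : Prime q) (hqS : q ∉ S) (I : Ideal (𝓞 K)) :
    S.filter (fun p => p ∣ q * I) = S.filter (fun p => p ∣ I) := by
  ext p
  simp only [Finset.mem_filter]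
  refine and_congr_right fun hp => ?_
  exact dvd_mul_prime (hS p hp) hq (fun h => hqS (h ▸ hp))

theorem moment_aux {C : ℝ} (hC : ∀ n : ℕ, (J K n : ℝ) ≤ C * n) (hC0 : 0 ≤ C)
    (h : Ideal (𝓞 K) → ℝ) (S : Finset (Ideal (𝓞 K))) (hS : ∀ p ∈ S, Prime p)
    (hh : ∀ p ∈ S, 0 ≤ h p) (n : ℕ) :
    ∑ y ∈ Th K n, ∏ q ∈ S.filter (fun q => q ∣ y), (1 + h q)
      ≤ C * n * ∏ q ∈ S, (1 + h q / Ideal.absNorm q) := by
  induction S using Finset.induction_on generalizing n with
  | empty =>
    simp only [Finset.filter_empty, Finset.prod_empty, Finset.sum_const, nsmul_eq_mul, mul_one]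
    exact hC n
  | insert q S hq ih =>
    have hqp := hS q (mem_insert_self _ _)
    have hSp := fun p hp => hS p (mem_insert_of_mem (s := S) (a := p) hp)
    have hhq := hh q (mem_insert_self _ _)
    have ih' := ih hSp (fun p hp => hh p (mem_insert_of_mem hp))
    set P := ∏ q ∈ S, (1 + h q / (Ideal.absNorm q : ℝ)) with hP
    have hP0 : 0 ≤ P := Finset.prod_nonneg fun r hr => by
      have := hh r (mem_insert_of_mem hr)
      positivity
    have e1 : ∑ y ∈ Th K n, ∏ r ∈ (insert q S).filter (fun r => r ∣ y), (1 + h r)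
        = ∑ y ∈ Th K n, ∏ r ∈ S.filter (fun r => r ∣ y), (1 + h r)
          + h q * ∑ y ∈ (Th K n).filter (fun y => q ∣ y), ∏ r ∈ S.filter (fun r => r ∣ y), (1 + h r) := by
      rw [Finset.sum_filter, Finset.mul_sum, ← Finset.sum_add_distrib]
      refine Finset.sum_congr rfl fun y _ => ?_
      rw [Finset.filter_insert]
      split_ifs with hd
      · rw [Finset.prod_insert (by simp [hq])]
        ring
      · ring
    have e2 : ∑ y ∈ (Th K n).filter (fun y => q ∣ y), ∏ r ∈ S.filter (fun r => r ∣ y), (1 + h r)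
        = ∑ y ∈ Th K (n / Ideal.absNorm q), ∏ r ∈ S.filter (fun r => r ∣ y), (1 + h r) := by
      rw [sum_dvd hqp]
      refine Finset.sum_congr rfl fun y _ => ?_
      rw [filter_dvd_mul hSp hqp hq]
    rw [e1, e2, Finset.prod_insert hq]
    have h3 := ih' n
    have h4 := ih' (n / Ideal.absNorm q)
    have h5 : ((n / Ideal.absNorm q : ℕ) : ℝ) ≤ n / Ideal.absNorm q := Nat.cast_div_le
    have h6 : C * ((n / Ideal.absNorm q : ℕ) : ℝ) * P ≤ C * (n / Ideal.absNorm q) * P :=
      mul_le_mul_of_nonneg_right (mul_le_mul_of_nonneg_left h5 hC0) hP0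
    calc _ ≤ C * n * P + h q * (C * (n / Ideal.absNorm q) * P) :=
          add_le_add h3 (mul_le_mul_of_nonneg_left (h4.trans h6) hhq)
      _ = _ := by ring

theorem sum_rho {C : ℝ} (hC : ∀ n : ℕ, (J K n : ℝ) ≤ C * n) (hC0 : 0 ≤ C)
    (S : Finset (Ideal (𝓞 K))) (hS : ∀ p ∈ S, p ≠ ⊥) :
    ∑ q ∈ S, rho q / Ideal.absNorm q ≤ 8 * C := by
  rw [← Finset.sum_fiberwise_of_maps_to (t := S.image lg) (g := lg)
    (fun x hx => Finset.mem_image_of_mem _ hx)]
  have h1 : ∀ j ∈ S.image lg, ∑ q ∈ S.filter (fun q => lg q = j), rho q / (Ideal.absNorm q : ℝ)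
      ≤ 2 * C * (3 / 4 : ℝ) ^ j := by
    intro j _
    have h2 : ∀ q ∈ S.filter (fun q => lg q = j), rho q / (Ideal.absNorm q : ℝ)
        ≤ (3 / 4 : ℝ) ^ j / 2 ^ j := by
      intro q hq
      rw [Finset.mem_filter] at hq
      unfold rho
      rw [hq.2]
      refine div_le_div_of_nonneg_left (by positivity) (by positivity) ?_
      have := pow_lg_le (hS q hq.1)
      rw [hq.2] at this
      exact_mod_cast this
    refine (Finset.sum_le_card_nsmul _ _ _ h2).trans ?_
    rw [nsmul_eq_mul]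
    have h3 : ((S.filter (fun q => lg q = j)).card : ℝ) ≤ C * 2 ^ (j + 1) := by
      have h4 : (S.filter (fun q => lg q = j)).card ≤ J K (2 ^ (j + 1)) := by
        refine Finset.card_le_card fun q hq => ?_
        rw [Finset.mem_filter] at hq
        rw [mem_Th]
        refine ⟨hS q hq.1, ?_⟩
        have := lt_pow_lg q
        rw [hq.2] at this
        exact this.le
      calc ((S.filter (fun q => lg q = j)).card : ℝ) ≤ J K (2 ^ (j + 1)) := by exact_mod_cast h4
        _ ≤ C * ((2 ^ (j + 1) : ℕ) : ℝ) := hC _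
        _ = _ := by push_cast; ring
    calc _ ≤ (C * 2 ^ (j + 1)) * ((3 / 4 : ℝ) ^ j / 2 ^ j) :=
          mul_le_mul_of_nonneg_right h3 (by positivity)
      _ = _ := by field_simp; ring
  refine (Finset.sum_le_sum h1).trans ?_
  rw [← Finset.mul_sum]
  have h5 : ∑ j ∈ S.image lg, (3 / 4 : ℝ) ^ j ≤ 4 := by
    have hs : Summable (fun j : ℕ => (3 / 4 : ℝ) ^ j) :=
      summable_geometric_of_lt_one (by norm_num) (by norm_num)
    refine (hs.sum_le_tsum _ (fun j _ => by positivity)).trans ?_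
    rw [tsum_geometric_of_lt_one (by norm_num) (by norm_num)]
    norm_num
  have : 2 * C * ∑ j ∈ S.image lg, (3 / 4 : ℝ) ^ j ≤ 2 * C * 4 :=
    mul_le_mul_of_nonneg_left h5 (by positivity)
  linarith

theorem moment4 : ∃ C4 : ℝ, 1 ≤ C4 ∧ ∀ S : Finset (Ideal (𝓞 K)), (∀ p ∈ S, Prime p) → ∀ n : ℕ,
    ∑ y ∈ Th K n, ∏ q ∈ S.filter (fun q => q ∣ y), ((1 - rho q)⁻¹) ^ 4 ≤ C4 * n := by
  obtain ⟨c, C, hc, hC1, hC, hcn⟩ := J_bounds (K := K)
  have hC0 : 0 ≤ C := by linarith
  refine ⟨C * Real.exp (1024 * (8 * C)), ?_, fun S hS n => ?_⟩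
  · have : 1 ≤ Real.exp (1024 * (8 * C)) := Real.one_le_exp (by positivity)
    nlinarith
  have h1 := moment_aux hC hC0 (fun q => ((1 - rho q)⁻¹) ^ 4 - 1) S hS
    (fun p hp => by have := one_le_pow₀ (one_le_fac (hS p hp)) (n := 4); linarith) n
  simp only [add_sub_cancel] at h1
  refine h1.trans ?_
  have h2 : ∏ q ∈ S, (1 + (((1 - rho q)⁻¹) ^ 4 - 1) / (Ideal.absNorm q : ℝ))
      ≤ Real.exp (1024 * (8 * C)) := by
    calc ∏ q ∈ S, (1 + (((1 - rho q)⁻¹) ^ 4 - 1) / (Ideal.absNorm q : ℝ))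
        ≤ ∏ q ∈ S, Real.exp (1024 * (rho q / (Ideal.absNorm q : ℝ))) := by
          refine Finset.prod_le_prod (fun q hq => ?_) (fun q hq => ?_)
          · have := one_le_pow₀ (one_le_fac (hS q hq)) (n := 4)
            have : 0 ≤ ((1 - rho q)⁻¹) ^ 4 - 1 := by linarith
            positivity
          · have h3 : ((1 - rho q)⁻¹) ^ 4 - 1 ≤ 1024 * rho q := by
              have h4 := rho_le (hS q hq)
              have h5 := rho_pos q
              have h6 : 0 < 1 - rho q := by linarith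
              have h7 := fac_le (hS q hq)
              have h8 := one_le_fac (hS q hq)
              set u := (1 - rho q)⁻¹ with hu
              have h9 : u * (1 - rho q) = 1 := inv_mul_cancel₀ h6.ne'
              have h10 : u - 1 = u * rho q := by linarith
              have h11 : u ^ 4 - 1 = (u - 1) * (u ^ 3 + u ^ 2 + u + 1) := by ring
              rw [h11, h10]
              have h12 : u ^ 3 + u ^ 2 + u + 1 ≤ 85 := by
                have := pow_le_pow_left₀ (by linarith) h7 3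
                have := pow_le_pow_left₀ (by linarith) h7 2
                linarith
              have h13 : u * rho q ≤ 4 * rho q := mul_le_mul_of_nonneg_right h7 h5.le
              calc u * rho q * (u ^ 3 + u ^ 2 + u + 1) ≤ (4 * rho q) * 85 := by
                    apply mul_le_mul h13 h12 (by positivity) (by positivity)
                _ ≤ _ := by linarith
            have hN : (0:ℝ) ≤ Ideal.absNorm q := Nat.cast_nonneg _
            calc 1 + (((1 - rho q)⁻¹) ^ 4 - 1) / (Ideal.absNorm q : ℝ)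
                ≤ 1 + 1024 * (rho q / (Ideal.absNorm q : ℝ)) := by
                  have := div_le_div_of_nonneg_right h3 hN
                  rw [← mul_div_assoc]
                  linarith
              _ ≤ _ := by
                  have := Real.add_one_le_exp (1024 * (rho q / (Ideal.absNorm q : ℝ)))
                  linarith
      _ = Real.exp (1024 * ∑ q ∈ S, rho q / (Ideal.absNorm q : ℝ)) := by
          rw [← Real.exp_sum, Finset.mul_sum]
      _ ≤ _ := by
          refine Real.exp_le_exp.2 ?_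
          have := sum_rho hC hC0 S (fun p hp => (hS p hp).ne_zero)
          linarith
  calc C * n * ∏ q ∈ S, (1 + (((1 - rho q)⁻¹) ^ 4 - 1) / (Ideal.absNorm q : ℝ))
      ≤ C * n * Real.exp (1024 * (8 * C)) := mul_le_mul_of_nonneg_left h2 (by positivity)
    _ = _ := by ring

theorem tail : ∃ C5 : ℝ, 1 ≤ C5 ∧ ∀ S : Finset (Ideal (𝓞 K)), (∀ p ∈ S, Prime p) → ∀ L : ℕ,
    (∀ p ∈ S, L ≤ lg p) →
    ∑ r ∈ S, 1 / (Ideal.absNorm r : ℝ) ^ 2 ≤ C5 * (2 / 3 : ℝ) ^ L := by
  obtain ⟨c, C, hc, hC1, hC, hcn⟩ := J_bounds (K := K)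
  have hC0 : 0 ≤ C := by linarith
  refine ⟨8 * C, by linarith, fun S hS L hL => ?_⟩
  have h1 : ∀ r ∈ S, 1 / (Ideal.absNorm r : ℝ) ^ 2 ≤ rho r / Ideal.absNorm r * (2 / 3 : ℝ) ^ L := by
    intro r hr
    have h2 : (2:ℝ) ^ lg r ≤ Ideal.absNorm r := by exact_mod_cast pow_lg_le (hS r hr).ne_zero
    have h3 : (0:ℝ) < Ideal.absNorm r := lt_of_lt_of_le (by positivity) h2
    have h4 : 1 / (Ideal.absNorm r : ℝ) ≤ rho r * (2 / 3 : ℝ) ^ L := by
      calc 1 / (Ideal.absNorm r : ℝ) ≤ 1 / 2 ^ lg r := one_div_le_one_div_of_le (by positivity) h2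
        _ = (3 / 4 : ℝ) ^ lg r * (2 / 3 : ℝ) ^ lg r := by
            rw [← mul_pow, ← one_div_pow]; norm_num
        _ ≤ (3 / 4 : ℝ) ^ lg r * (2 / 3 : ℝ) ^ L := by
            refine mul_le_mul_of_nonneg_left ?_ (by positivity)
            exact pow_le_pow_of_le_one (by norm_num) (by norm_num) (hL r hr)
    calc 1 / (Ideal.absNorm r : ℝ) ^ 2 = 1 / (Ideal.absNorm r : ℝ) * (1 / (Ideal.absNorm r : ℝ)) := by
          field_simp
      _ ≤ 1 / (Ideal.absNorm r : ℝ) * (rho r * (2 / 3 : ℝ) ^ L) :=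
          mul_le_mul_of_nonneg_left h4 (by positivity)
      _ = _ := by ring
  refine (Finset.sum_le_sum h1).trans ?_
  rw [← Finset.sum_mul]
  exact mul_le_mul_of_nonneg_right (sum_rho hC hC0 S (fun p hp => (hS p hp).ne_zero)) (by positivity)

end

end Pool.Agent.Helper3.CF
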