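import Pool.Agent.Helper3.CF.Limit

set_option autoImplicit false

/-!
# Almost cross-intersecting families of ideals
-/

open Finset Filter Topology NumberField
open scoped Classical

namespace Pool.Agent.Helper3.CF

noncomputable section

set_option linter.unusedSectionVars false

variable {K : Type*} [Field K] [NumberField K]

/-- weight -/
def W (a : Finset (Ideal (𝓞 K))) : ℝ := ∏ q ∈ a, (1 - pr q)⁻¹

theorem pr_pos {q : Ideal (𝓞 K)} (hq : Prime q) : 0 < pr q := by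
  unfold pr
  have : (0:ℝ) < Ideal.absNorm q := by exact_mod_cast (by have := prime_norm hq; omega)
  positivity

theorem pr_le_third {q : Ideal (𝓞 K)} (h3 : 3 ≤ Ideal.absNorm q) : pr q ≤ 1 / 3 := by
  unfold pr
  exact one_div_le_one_div_of_le (by norm_num) (by exact_mod_cast h3)

theorem pr_le_rho {q : Ideal (𝓞 K)} (hq : Prime q) : pr q ≤ rho q := by
  unfold pr rho
  have h2 : (2:ℝ) ^ lg q ≤ Ideal.absNorm q := by exact_mod_cast pow_lg_le hq.ne_zero
  calc 1 / (Ideal.absNorm q : ℝ) ≤ 1 / 2 ^ lg q := one_div_le_one_div_of_le (by positivity) h2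
    _ = (1 / 2 : ℝ) ^ lg q := by rw [one_div_pow]
    _ ≤ (3 / 4 : ℝ) ^ lg q := pow_le_pow_left₀ (by norm_num) (by norm_num) _

theorem W_le {a : Finset (Ideal (𝓞 K))} (ha : ∀ q ∈ a, Prime q) :
    W a ≤ ∏ q ∈ a, ((1 - rho q)⁻¹) ^ 4 := by
  unfold W
  refine Finset.prod_le_prod (fun q hq => ?_) (fun q hq => ?_)
  · have := pr_le_rho (ha q hq)
    have := rho_le (ha q hq)
    exact inv_nonneg.2 (by linarith)
  · have h1 := pr_le_rho (ha q hq)
    have h2 := rho_le (ha q hq)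
    have h3 : (1 - pr q)⁻¹ ≤ (1 - rho q)⁻¹ := inv_anti₀ (by linarith) (by linarith)
    refine h3.trans ?_
    have h4 := one_le_fac (ha q hq)
    calc (1 - rho q)⁻¹ = ((1 - rho q)⁻¹) ^ 1 := (pow_one _).symm
      _ ≤ _ := pow_le_pow_right₀ h4 (by norm_num)

theorem W_nonneg {a : Finset (Ideal (𝓞 K))} (ha : ∀ q ∈ a, Prime q) : 0 ≤ W a := by
  unfold W
  refine Finset.prod_nonneg fun q hq => ?_
  have := pr_le_rho (ha q hq)
  have := rho_le (ha q hq)
  exact inv_nonneg.2 (by linarith)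

/-- sum of weights over the multiples of `r` -/
theorem sum_W_le {C4 : ℝ} (h4 : ∀ S : Finset (Ideal (𝓞 K)), (∀ p ∈ S, Prime p) → ∀ n : ℕ,
    ∑ y ∈ Th K n, ∏ q ∈ S.filter (fun q => q ∣ y), ((1 - rho q)⁻¹) ^ 4 ≤ C4 * n) (hC4 : 0 ≤ C4)
    {P : Finset (Ideal (𝓞 K))} (hP : ∀ p ∈ P, Prime p) {r : Ideal (𝓞 K)} (hr : Prime r)
    (hrP : r ∉ P) (n : ℕ) :
    ∑ x ∈ (Th K n).filter (fun x => r ∣ x), W (tr P x) ≤ C4 * (n / Ideal.absNorm r) := by
  rw [sum_dvd hr]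
  have h1 : ∀ x ∈ Th K (n / Ideal.absNorm r), W (tr P (r * x))
      ≤ ∏ q ∈ P.filter (fun q => q ∣ x), ((1 - rho q)⁻¹) ^ 4 := by
    intro x _
    unfold tr
    rw [filter_dvd_mul hP hr hrP]
    exact W_le (fun q hq => hP q (Finset.mem_filter.1 hq).1)
  refine (Finset.sum_le_sum h1).trans ((h4 P hP _).trans ?_)
  exact mul_le_mul_of_nonneg_left Nat.cast_div_le hC4

theorem absNorm_le_of_dvd {r x : Ideal (𝓞 K)} (hx : x ≠ ⊥) (h : r ∣ x) :
    Ideal.absNorm r ≤ Ideal.absNorm x :=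
  Nat.le_of_dvd (norm_pos hx) (Ideal.absNorm_dvd_absNorm_of_le (Ideal.dvd_iff_le.1 h))

/-- pair count -/
theorem pair_sum {C4 C5 : ℝ} (h4 : ∀ S : Finset (Ideal (𝓞 K)), (∀ p ∈ S, Prime p) → ∀ n : ℕ,
    ∑ y ∈ Th K n, ∏ q ∈ S.filter (fun q => q ∣ y), ((1 - rho q)⁻¹) ^ 4 ≤ C4 * n) (hC4 : 0 ≤ C4)
    (h5 : ∀ S : Finset (Ideal (𝓞 K)), (∀ p ∈ S, Prime p) → ∀ L : ℕ,
      (∀ p ∈ S, L ≤ lg p) → ∑ r ∈ S, 1 / (Ideal.absNorm r : ℝ) ^ 2 ≤ C5 * (2 / 3 : ℝ) ^ L)
    {P : Finset (Ideal (𝓞 K))} (hP : ∀ p ∈ P, Prime p) {E : Finset (Ideal (𝓞 K))}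
    {L : ℕ} (hPL : ∀ p, Prime p → p ∉ E → lg p < L → p ∈ P)
    {T T' : Finset (Ideal (𝓞 K))} (hT : Disjoint T T') {n : ℕ}
    {X Y : Finset (Ideal (𝓞 K))} (hX : X ⊆ Th K n) (hY : Y ⊆ Th K n)
    (hXT : ∀ x ∈ X, tr E x = T) (hYT : ∀ y ∈ Y, tr E y = T')
    (hXY : ∀ x ∈ X, ∀ y ∈ Y, ∃ p, Prime p ∧ p ∣ x ∧ p ∣ y) :
    ∑ x ∈ X, ∑ y ∈ Y, (if Disjoint (tr P x) (tr P y) then W (tr P x) * W (tr P y) else 0)
      ≤ C4 ^ 2 * n ^ 2 * (C5 * (2 / 3 : ℝ) ^ L) := by
  set R := (Th K n).filter (fun r => Prime r ∧ r ∉ P ∧ L ≤ lg r) with hR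
  have hRp : ∀ r ∈ R, Prime r := fun r hr => (Finset.mem_filter.1 hr).2.1
  have hW0 : ∀ x : Ideal (𝓞 K), 0 ≤ W (tr P x) := fun x =>
    W_nonneg (fun q hq => hP q (mem_tr.1 hq).1)
  have h1 : ∀ x ∈ X, ∀ y ∈ Y, (if Disjoint (tr P x) (tr P y) then W (tr P x) * W (tr P y) else 0)
      ≤ ∑ r ∈ R, (if r ∣ x then W (tr P x) else 0) * (if r ∣ y then W (tr P y) else 0) := by
    intro x hx y hy
    have hnn : ∀ r ∈ R, 0 ≤ (if r ∣ x then W (tr P x) else 0) * (if r ∣ y then W (tr P y) else 0) := by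
      intro r _
      apply mul_nonneg <;> split_ifs <;> first | exact hW0 _ | exact le_refl _
    split_ifs with hd
    · obtain ⟨r, hr, hrx, hry⟩ := hXY x hx y hy
      have hrE : r ∉ E := by
        intro h
        have h2 : r ∈ tr E x := mem_tr.2 ⟨h, hrx⟩
        have h3 : r ∈ tr E y := mem_tr.2 ⟨h, hry⟩
        rw [hXT x hx] at h2
        rw [hYT y hy] at h3
        exact (Finset.disjoint_left.1 hT) h2 h3
      have hrP : r ∉ P := fun h =>
        (Finset.disjoint_left.1 hd) (mem_tr.2 ⟨h, hrx⟩) (mem_tr.2 ⟨h, hry⟩)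
      have hrL : L ≤ lg r := by
        by_contra hc
        exact hrP (hPL r hr hrE (not_le.1 hc))
      have hx' := mem_Th.1 (hX hx)
      have hrR : r ∈ R := by
        rw [hR, Finset.mem_filter, mem_Th]
        exact ⟨⟨hr.ne_zero, (absNorm_le_of_dvd hx'.1 hrx).trans hx'.2⟩, hr, hrP, hrL⟩
      refine le_trans (le_of_eq ?_) (Finset.single_le_sum hnn hrR)
      rw [if_pos hrx, if_pos hry]
    · exact Finset.sum_nonneg hnn
  calc _ ≤ ∑ x ∈ X, ∑ y ∈ Y, ∑ r ∈ R,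
        (if r ∣ x then W (tr P x) else 0) * (if r ∣ y then W (tr P y) else 0) :=
        Finset.sum_le_sum fun x hx => Finset.sum_le_sum fun y hy => h1 x hx y hy
    _ = ∑ r ∈ R, (∑ x ∈ X, if r ∣ x then W (tr P x) else 0)
          * (∑ y ∈ Y, if r ∣ y then W (tr P y) else 0) := by
        symm
        simp_rw [Finset.sum_mul_sum]
        rw [Finset.sum_comm]
        refine Finset.sum_congr rfl fun x _ => ?_
        rw [Finset.sum_comm]
    _ ≤ ∑ r ∈ R, (C4 * (n / Ideal.absNorm r)) * (C4 * (n / Ideal.absNorm r)) := by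
        refine Finset.sum_le_sum fun r hr => ?_
        have hb : ∀ Z ⊆ Th K n, (∑ x ∈ Z, if r ∣ x then W (tr P x) else 0)
            ≤ C4 * (n / Ideal.absNorm r) := by
          intro Z hZ
          refine le_trans ?_ (sum_W_le h4 hC4 hP (hRp r hr) (Finset.mem_filter.1 hr).2.2.1 n)
          rw [Finset.sum_filter]
          refine Finset.sum_le_sum_of_subset_of_nonneg hZ fun x _ _ => ?_
          split_ifs
          · exact hW0 _
          · exact le_refl _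
        have hb0 : ∀ Z ⊆ Th K n, 0 ≤ (∑ x ∈ Z, if r ∣ x then W (tr P x) else 0) := by
          intro Z _
          refine Finset.sum_nonneg fun x _ => ?_
          split_ifs
          · exact hW0 _
          · exact le_refl _
        exact mul_le_mul (hb X hX) (hb Y hY) (hb0 Y hY) ((hb0 X hX).trans (hb X hX))
    _ = C4 ^ 2 * n ^ 2 * ∑ r ∈ R, 1 / (Ideal.absNorm r : ℝ) ^ 2 := by
        rw [Finset.mul_sum]
        refine Finset.sum_congr rfl fun r _ => ?_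
        ring
    _ ≤ _ := by
        refine mul_le_mul_of_nonneg_left ?_ (by positivity)
        exact h5 R hRp L (fun r hr => (Finset.mem_filter.1 hr).2.2.2)

/-- regroup a sum over pairs by traces -/
theorem sum_by_trace (P X Y : Finset (Ideal (𝓞 K))) :
    ∑ a ∈ P.powerset, ∑ b ∈ P.powerset,
      (if Disjoint a b then (((X.filter (fun x => tr P x = a)).card : ℝ) * W a)
        * (((Y.filter (fun y => tr P y = b)).card : ℝ) * W b) else 0)
    = ∑ x ∈ X, ∑ y ∈ Y, (if Disjoint (tr P x) (tr P y) then W (tr P x) * W (tr P y) else 0) := by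
  have e : ∀ (Z : Finset (Ideal (𝓞 K))) (φ : Finset (Ideal (𝓞 K)) → ℝ),
      ∑ z ∈ Z, φ (tr P z) = ∑ a ∈ P.powerset, ((Z.filter (fun z => tr P z = a)).card : ℝ) * φ a := by
    intro Z φ
    rw [← Finset.sum_fiberwise_of_maps_to (t := P.powerset) (g := fun z => tr P z)
      (fun z _ => Finset.mem_powerset.2 (tr_sub P z))]
    refine Finset.sum_congr rfl fun a _ => ?_
    rw [Finset.sum_congr rfl (g := fun _ => φ a)
      (fun z hz => by rw [(Finset.mem_filter.1 hz).2]), Finset.sum_const, nsmul_eq_mul]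
  rw [e X (fun a => ∑ y ∈ Y, (if Disjoint a (tr P y) then W a * W (tr P y) else 0))]
  refine Finset.sum_congr rfl fun a _ => ?_
  rw [e Y (fun b => if Disjoint a b then W a * W b else 0), Finset.mul_sum]
  refine Finset.sum_congr rfl fun b _ => ?_
  split_ifs
  · ring
  · ring

theorem alg4 (x y w v D : ℝ) : x / D * w * (y / D * v) = x * w * (y * v) / D ^ 2 := by ring

theorem mu_pos {P : Finset (Ideal (𝓞 K))} (hP1 : ∀ p ∈ P, Prime p)
    (hP3 : ∀ p ∈ P, 3 ≤ Ideal.absNorm p) (a : Finset (Ideal (𝓞 K))) : 0 < mu pr P a := by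
  unfold mu
  refine Finset.prod_pos fun q hq => ?_
  split_ifs
  · exact pr_pos (hP1 q hq)
  · have := pr_le_third (hP3 q hq); linarith

/-- empirical density of `Z` above the trace `a` -/
def dens (P Z : Finset (Ideal (𝓞 K))) (D : ℝ) (a : Finset (Ideal (𝓞 K))) : ℝ :=
  ((Z.filter (fun z => tr P z = a)).card : ℝ) / (D * mu pr P a)

theorem mu_dens {P : Finset (Ideal (𝓞 K))} (hmu : ∀ a, 0 < mu pr P a) (Z : Finset (Ideal (𝓞 K)))
    (D : ℝ) (a : Finset (Ideal (𝓞 K))) : mu pr P a * dens P Z D a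
      = ((Z.filter (fun z => tr P z = a)).card : ℝ) / D := by
  unfold dens
  rw [mul_comm D, mul_div_assoc', mul_div_mul_left _ _ (hmu a).ne']

theorem EE_dens {P : Finset (Ideal (𝓞 K))} (hmu : ∀ a, 0 < mu pr P a) (Z : Finset (Ideal (𝓞 K)))
    (D : ℝ) : EE pr P (dens P Z D) = Z.card / D := by
  unfold EE
  rw [Finset.card_eq_sum_card_fiberwise (f := fun z => tr P z) (t := P.powerset)
    (fun z _ => Finset.mem_powerset.2 (tr_sub P z)), Nat.cast_sum, Finset.sum_div]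
  refine Finset.sum_congr rfl fun a _ => ?_
  rw [mu_dens hmu]

theorem BB_dens {P : Finset (Ideal (𝓞 K))} (hmu : ∀ a, 0 < mu pr P a)
    (hpr : ∀ q ∈ P, 0 ≤ pr q ∧ pr q ≤ 1 / 3) (X Y : Finset (Ideal (𝓞 K))) {D : ℝ} (hD : 0 < D) :
    BB pr P (dens P X D) (dens P Y D) ≤
      (∑ x ∈ X, ∑ y ∈ Y, (if Disjoint (tr P x) (tr P y) then W (tr P x) * W (tr P y) else 0))
        / D ^ 2 := by
  have h0 : ∀ (Z a : Finset (Ideal (𝓞 K))), 0 ≤ dens P Z D a := by
    intro Z a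
    unfold dens
    have := hmu a
    positivity
  refine (BB_le P hpr _ _ (fun a _ => h0 X a) (fun a _ => h0 Y a)).trans (le_of_eq ?_)
  rw [← sum_by_trace, Finset.sum_div]
  refine Finset.sum_congr rfl fun a _ => ?_
  rw [Finset.sum_div]
  refine Finset.sum_congr rfl fun b _ => ?_
  by_cases h : Disjoint a b
  · rw [if_pos h, if_pos h, mu_dens hmu, mu_dens hmu]
    exact alg4 _ _ _ _ _
  · rw [if_neg h, if_neg h, zero_div]

theorem final_alg {e η x y : ℝ} (he0 : 0 < e) (he1 : e ≤ 1) (hη : η ≤ e / 32)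
    (hx0 : 0 ≤ x) (hy0 : 0 ≤ y)
    (h : x / (1 + e / 8) + y / (1 + e / 8) + 3 * (x / (1 + e / 8) * (y / (1 + e / 8))) ≤ 1 + 8 * η) :
    x + y + 3 * (x * y) ≤ 1 + e := by
  have hs : 0 < 1 + e / 8 := by positivity
  have h10 : x / (1 + e / 8) + y / (1 + e / 8) + 3 * (x / (1 + e / 8) * (y / (1 + e / 8)))
      = (x * (1 + e / 8) + y * (1 + e / 8) + 3 * (x * y)) / (1 + e / 8) ^ 2 := by
    field_simp
  rw [h10, div_le_iff₀ (by positivity)] at h
  have h11 : x + y + 3 * (x * y) ≤ x * (1 + e / 8) + y * (1 + e / 8) + 3 * (x * y) := by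
    nlinarith
  have h12 : (1 + 8 * η) * (1 + e / 8) ^ 2 ≤ 1 + e := by
    have h13 : 1 + 8 * η ≤ 1 + e / 4 := by linarith
    calc (1 + 8 * η) * (1 + e / 8) ^ 2 ≤ (1 + e / 4) * (1 + e / 8) ^ 2 :=
          mul_le_mul_of_nonneg_right h13 (by positivity)
      _ ≤ 1 + e := by nlinarith [mul_nonneg he0.le he0.le, mul_nonneg (mul_nonneg he0.le he0.le) he0.le]
  linarith

/-- **Proposition 1.** Sets of ideals of disjoint types all of whose cross pairs share a prime. -/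
theorem prop1 {E : Finset (Ideal (𝓞 K))} (hE : IsE2 E) {ε : ℝ} (hε : 0 < ε) :
    ∀ᶠ n : ℕ in atTop, ∀ T ⊆ E, ∀ T' ⊆ E, Disjoint T T' → ∀ X ⊆ Th K n, ∀ Y ⊆ Th K n,
      (∀ x ∈ X, tr E x = T) → (∀ y ∈ Y, tr E y = T') →
      (∀ x ∈ X, ∀ y ∈ Y, ∃ p, Prime p ∧ p ∣ x ∧ p ∣ y) →
      (X.card : ℝ) / (kap K / 2 ^ E.card * n) + (Y.card : ℝ) / (kap K / 2 ^ E.card * n)
        + 3 * ((X.card : ℝ) / (kap K / 2 ^ E.card * n) * ((Y.card : ℝ) / (kap K / 2 ^ E.card * n)))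
        ≤ 1 + ε := by
  obtain ⟨C4, hC41, h4⟩ := moment4 (K := K)
  obtain ⟨C5, hC51, h5⟩ := tail (K := K)
  set κ := kap K / 2 ^ E.card with hκ
  have hκ0 : 0 < κ := div_pos kap_pos (by positivity)
  set e := min ε 1 with he
  have he0 : 0 < e := lt_min hε one_pos
  have he1 : e ≤ 1 := min_le_right _ _
  -- choose L
  obtain ⟨L, hL⟩ : ∃ L : ℕ, C4 ^ 2 * (C5 * (2 / 3 : ℝ) ^ L) / κ ^ 2 ≤ e / 32 := by
    have ht : Tendsto (fun L : ℕ => C4 ^ 2 * (C5 * (2 / 3 : ℝ) ^ L) / κ ^ 2) atTop (𝓝 0) := by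
      have := (tendsto_pow_atTop_nhds_zero_of_lt_one (by norm_num : (0:ℝ) ≤ 2 / 3)
        (by norm_num)).const_mul (C4 ^ 2 * C5 / κ ^ 2)
      rw [mul_zero] at this
      refine this.congr fun L => ?_
      ring
    exact ((ht.eventually (gt_mem_nhds (by positivity : (0:ℝ) < e / 32))).exists).imp
      fun L h => le_of_lt h
  set η := C4 ^ 2 * (C5 * (2 / 3 : ℝ) ^ L) / κ ^ 2 with hη
  have hη0 : 0 ≤ η := by positivity
  obtain ⟨P, hP1, hP3, hPL⟩ : ∃ P : Finset (Ideal (𝓞 K)), (∀ p ∈ P, Prime p) ∧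
      (∀ p ∈ P, 3 ≤ Ideal.absNorm p) ∧ (∀ p, Prime p → p ∉ E → lg p < L → p ∈ P) := by
    refine ⟨(Th K (2 ^ L)).filter (fun p => Prime p ∧ p ∉ E ∧ lg p < L),
      fun p hp => (Finset.mem_filter.1 hp).2.1, fun p hp => ?_, fun p hp hpE hl => ?_⟩
    · have h6 := Finset.mem_filter.1 hp
      have h7 := prime_norm h6.2.1
      have h8 : Ideal.absNorm p ≠ 2 := fun h => h6.2.2.1 ((hE p).2 ⟨h6.2.1, h⟩)
      omega
    · rw [Finset.mem_filter, mem_Th]
      refine ⟨⟨hp.ne_zero, ?_⟩, hp, hpE, hl⟩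
      exact (lt_pow_lg p).le.trans (Nat.pow_le_pow_right (by norm_num) hl)
  have hpr : ∀ q ∈ P, 0 ≤ pr q ∧ pr q ≤ 1 / 3 := fun q hq =>
    ⟨(pr_pos (hP1 q hq)).le, pr_le_third (hP3 q hq)⟩
  have hmu : ∀ a, 0 < mu pr P a := mu_pos hP1 hP3
  -- frequency bounds
  have hfreq : ∀ᶠ n : ℕ in atTop, ∀ T ∈ E.powerset, ∀ a ∈ P.powerset,
      (((Th K n).filter (fun I => tr E I = T ∧ tr P I = a)).card : ℝ) / n
        < (1 + e / 8) * (κ * mu pr P a) := by
    rw [eventually_all_finset]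
    intro T hT
    rw [eventually_all_finset]
    intro a ha
    have h6 := count_type_tendsto hE (fun p hp => ⟨hP1 p hp, hP3 p hp⟩)
      (Finset.mem_powerset.1 hT) (Finset.mem_powerset.1 ha)
    refine h6.eventually (gt_mem_nhds ?_)
    have h7 : 0 < κ * mu pr P a := mul_pos hκ0 (hmu a)
    nlinarith
  filter_upwards [hfreq, eventually_ge_atTop 1] with n hn hn1 T hT T' hT' hTT X hX Y hY hXT hYT hXY
  have hn0 : (0:ℝ) < n := by exact_mod_cast hn1
  have hD0 : 0 < (1 + e / 8) * (κ * n) := by positivity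
  -- densities
  have hdens : ∀ T ⊆ E, ∀ Z ⊆ Th K n, (∀ z ∈ Z, tr E z = T) → ∀ a ⊆ P,
      0 ≤ dens P Z ((1 + e / 8) * (κ * n)) a ∧ dens P Z ((1 + e / 8) * (κ * n)) a ≤ 1 := by
    intro T hT Z hZ hZT a ha
    have h6 := hn T (Finset.mem_powerset.2 hT) a (Finset.mem_powerset.2 ha)
    have h7 : (Z.filter (fun z => tr P z = a)).card
        ≤ ((Th K n).filter (fun I => tr E I = T ∧ tr P I = a)).card := by
      refine Finset.card_le_card fun z hz => ?_
      rw [Finset.mem_filter] at hz ⊢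
      exact ⟨hZ hz.1, hZT z hz.1, hz.2⟩
    have h8 : ((Z.filter (fun z => tr P z = a)).card : ℝ) ≤ (1 + e / 8) * (κ * n) * mu pr P a := by
      rw [div_lt_iff₀ hn0] at h6
      have h9 : ((Z.filter (fun z => tr P z = a)).card : ℝ)
        ≤ (((Th K n).filter (fun I => tr E I = T ∧ tr P I = a)).card : ℝ) := by exact_mod_cast h7
      calc _ ≤ _ := h9
        _ ≤ _ := h6.le
        _ = _ := by ring
    have h9 : 0 < (1 + e / 8) * (κ * n) * mu pr P a := mul_pos hD0 (hmu a)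
    unfold dens
    exact ⟨by positivity, (div_le_one h9).2 h8⟩
  have hBB : BB pr P (dens P X ((1 + e / 8) * (κ * n))) (dens P Y ((1 + e / 8) * (κ * n))) ≤ η := by
    refine (BB_dens hmu hpr X Y hD0).trans ?_
    have h6 := pair_sum h4 (by linarith) h5 hP1 hPL hTT hX hY hXT hYT hXY
    rw [div_le_iff₀ (by positivity)]
    refine h6.trans ?_
    have h7 : C4 ^ 2 * n ^ 2 * (C5 * (2 / 3 : ℝ) ^ L) = η * (κ * n) ^ 2 := by
      rw [hη]; field_simp
    rw [h7]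
    refine mul_le_mul_of_nonneg_left ?_ hη0
    refine pow_le_pow_left₀ (by positivity) ?_ 2
    have : 0 < κ * n := by positivity
    nlinarith
  have hfin := spectral_final P hpr _ _ (hdens T hT X hX hXT) (hdens T' hT' Y hY hYT) hη0 hBB
  rw [EE_dens hmu, EE_dens hmu] at hfin
  -- convert
  have ex : ∀ t : ℝ, t / ((1 + e / 8) * (κ * n)) = t / (κ * n) / (1 + e / 8) := by
    intro t
    rw [div_div, mul_comm (κ * (n:ℝ))]
  rw [ex, ex] at hfin
  have := final_alg he0 he1 hL (by positivity) (by positivity) hfin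
  have h14 : e ≤ ε := min_le_left _ _
  linarith

end

end Pool.Agent.Helper3.CF
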