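import Pool.Agent.Helper3.CF.Prop1

set_option autoImplicit false

/-!
# Small nonempty families lose more than they gain
-/

open Finset Filter Topology NumberField
open scoped Classical

namespace Pool.Agent.Helper3.CF

noncomputable section

set_option linter.unusedSectionVars false

variable {K : Type*} [Field K] [NumberField K]

theorem GG_le_of_subset {S S' : Finset (Ideal (𝓞 K))} (h : S ⊆ S') (hS' : ∀ p ∈ S', Prime p) :
    GG S ≤ GG S' := by
  unfold GG
  rw [← Finset.prod_sdiff h]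
  have h1 : 1 ≤ ∏ q ∈ S' \ S, (1 - rho q)⁻¹ :=
    one_le_GG (fun p hp => hS' p (Finset.mem_sdiff.1 hp).1)
  have h2 : 0 ≤ ∏ q ∈ S, (1 - rho q)⁻¹ :=
    le_trans zero_le_one (one_le_GG (fun p hp => hS' p (h hp)))
  nlinarith

theorem GG_union_le {S S' : Finset (Ideal (𝓞 K))} (hS : ∀ p ∈ S, Prime p) (hS' : ∀ p ∈ S', Prime p) :
    GG (S ∪ S') ≤ GG S * GG S' := by
  have h1 : GG (S ∪ S') = GG S * GG (S' \ S) := by
    unfold GG
    rw [← Finset.union_sdiff_self_eq_union, Finset.prod_union Finset.disjoint_sdiff]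
  rw [h1]
  refine mul_le_mul_of_nonneg_left (GG_le_of_subset Finset.sdiff_subset hS') ?_
  exact le_trans zero_le_one (one_le_GG hS)

theorem GG_le_pow {S : Finset (Ideal (𝓞 K))} (hS : ∀ p ∈ S, Prime p) : GG S ≤ 4 ^ S.card := by
  unfold GG
  calc ∏ q ∈ S, (1 - rho q)⁻¹ ≤ ∏ _q ∈ S, (4:ℝ) :=
        Finset.prod_le_prod (fun q hq => le_trans zero_le_one (one_le_fac (hS q hq)))
          (fun q hq => fac_le (hS q hq))
    _ = 4 ^ S.card := by rw [Finset.prod_const]

/-- the ideals `(∏_{p ∈ T} p) · I'` with `I'` coprime to `E` and `y` -/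
theorem missing_lower {E : Finset (Ideal (𝓞 K))} (hE : IsE2 E) {T : Finset (Ideal (𝓞 K))}
    (hT : T ⊆ E) {n : ℕ} {y : Ideal (𝓞 K)} (hy : y ∈ Th K n) (hyT : tr E y = E \ T) :
    JS (E ∪ ((Th K n).filter (fun p => Prime p ∧ p ∣ y))) (n / 2 ^ T.card)
      ≤ ((Th K n).filter (fun I => tr E I = T ∧ ∀ p, Prime p → p ∣ I → ¬ p ∣ y)).card := by
  have hTp : ∀ p ∈ T, Prime p := fun p hp => ((hE p).1 (hT hp)).1
  have hne : (∏ p ∈ T, p) ≠ 0 := Finset.prod_ne_zero_iff.2 fun p hp => (hTp p hp).ne_zero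
  have hnorm : Ideal.absNorm (∏ p ∈ T, p) = 2 ^ T.card := by
    rw [map_prod, ← Finset.prod_const]
    exact Finset.prod_congr rfl fun p hp => ((hE p).1 (hT hp)).2
  have hdvd : ∀ p, Prime p → (p ∣ ∏ q ∈ T, q) → p ∈ T := by
    intro p hp h
    obtain ⟨q, hq, hpq⟩ := (hp.dvd_finsetProd_iff _).1 h
    rw [prime_dvd_prime hp (hTp q hq) hpq]; exact hq
  unfold JS
  refine Finset.card_le_card_of_injOn (fun I => (∏ p ∈ T, p) * I) ?_ ?_
  · intro I hI
    have hI' := Finset.mem_filter.1 hI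
    rw [mem_Th] at hI'
    simp only [Finset.coe_filter, Set.mem_ofPred_eq, mem_Th]
    refine ⟨⟨mul_ne_zero hne hI'.1.1, ?_⟩, ?_, ?_⟩
    · rw [map_mul, hnorm, mul_comm]
      exact (Nat.le_div_iff_mul_le (by positivity)).1 hI'.1.2
    · rw [tr_eq_iff hT]
      refine ⟨fun p hp => (Finset.dvd_prod_of_mem _ hp).mul_right _, fun p hp h => ?_⟩
      rw [Finset.mem_sdiff] at hp
      have hpp := ((hE p).1 hp.1).1
      rcases hpp.dvd_or_dvd h with h1 | h1
      · exact hp.2 (hdvd p hpp h1)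
      · exact hI'.2 p (Finset.mem_union_left _ hp.1) h1
    · intro p hp h hpy
      rcases hp.dvd_or_dvd h with h1 | h1
      · have h2 := hdvd p hp h1
        have h3 : p ∈ tr E y := mem_tr.2 ⟨hT h2, hpy⟩
        rw [hyT, Finset.mem_sdiff] at h3
        exact h3.2 h2
      · refine hI'.2 p (Finset.mem_union_right _ ?_) h1
        have hy' := mem_Th.1 hy
        rw [Finset.mem_filter, mem_Th]
        exact ⟨⟨hp.ne_zero, (absNorm_le_of_dvd hy'.1 hpy).trans hy'.2⟩, hp, hpy⟩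
  · intro a _ b _ h
    exact mul_right_injective₀ hne h

/-- **Proposition 2.** -/
theorem prop2 {E : Finset (Ideal (𝓞 K))} (hE : IsE2 E) : ∃ δ : ℝ, 0 < δ ∧ ∀ n : ℕ, 2 ^ E.card ≤ n →
    ∀ T ⊆ E, ∀ Y ⊆ Th K n, Y.Nonempty → (∀ y ∈ Y, tr E y = E \ T) → (Y.card : ℝ) ≤ δ * n →
    Y.card < ((Th K n).filter (fun I => tr E I = T ∧ ∃ y ∈ Y, ∀ p, Prime p → p ∣ I → ¬ p ∣ y)).card := by
  obtain ⟨c', hc', hlow⟩ := JS_lower (K := K)
  obtain ⟨C4, hC41, h4⟩ := moment4 (K := K)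
  set k := E.card with hk
  set c5 := c' / (2 ^ (k + 1) * 16 ^ k) with hc5
  have hc50 : 0 < c5 := by positivity
  have hEp : ∀ p ∈ E, Prime p := fun p hp => ((hE p).1 hp).1
  refine ⟨c5 ^ 2 / (2 * C4), by positivity, fun n hn T hT Y hY hYne hYT hYδ => ?_⟩
  have hn1 : 1 ≤ n := le_trans Nat.one_le_two_pow hn
  have hn0 : (0:ℝ) < n := by exact_mod_cast hn1
  set S := (Th K n).filter (fun p => Prime p) with hS
  have hSp : ∀ p ∈ S, Prime p := fun p hp => (Finset.mem_filter.1 hp).2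
  have hSy : ∀ y, S.filter (fun q => q ∣ y) = (Th K n).filter (fun p => Prime p ∧ p ∣ y) := by
    intro y; rw [hS, Finset.filter_filter]
  have hGp : ∀ y, ∀ p ∈ S.filter (fun q => q ∣ y), Prime p := fun y p hp =>
    hSp p (Finset.mem_filter.1 hp).1
  obtain ⟨y0, hy0, hmin⟩ := Finset.exists_min_image Y (fun y => GG (S.filter (fun q => q ∣ y))) hYne
  set g := GG (S.filter (fun q => q ∣ y0)) with hg
  have hg1 : 1 ≤ g := one_le_GG (hGp y0)
  -- upper bound for |Y|
  have hup : (Y.card : ℝ) * (g ^ 2) ^ 2 ≤ C4 * n := by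
    refine le_trans ?_ (h4 S hSp n)
    calc (Y.card : ℝ) * (g ^ 2) ^ 2 = ∑ y ∈ Y, g ^ 4 := by
          rw [Finset.sum_const, nsmul_eq_mul]; ring
      _ ≤ ∑ y ∈ Y, ∏ q ∈ S.filter (fun q => q ∣ y), ((1 - rho q)⁻¹) ^ 4 := by
          refine Finset.sum_le_sum fun y hy => ?_
          rw [Finset.prod_pow]
          exact pow_le_pow_left₀ (by linarith) (hmin y hy) 4
      _ ≤ _ := by
          refine Finset.sum_le_sum_of_subset_of_nonneg hY fun y _ _ => ?_
          refine Finset.prod_nonneg fun q hq => ?_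
          have := one_le_fac (hGp y q hq)
          positivity
  -- lower bound for the missing set
  have hlo : c5 * n / g ^ 2 ≤ (((Th K n).filter
      (fun I => tr E I = T ∧ ∃ y ∈ Y, ∀ p, Prime p → p ∣ I → ¬ p ∣ y)).card : ℝ) := by
    have h6 := missing_lower hE hT (hY hy0) (hYT y0 hy0)
    rw [← hSy] at h6
    have h7 := hlow (E ∪ S.filter (fun q => q ∣ y0)) (fun p hp => by
      rcases Finset.mem_union.1 hp with hp | hp
      · exact hEp p hp
      · exact hGp y0 p hp) (n / 2 ^ T.card)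
    have h8 : GG (E ∪ S.filter (fun q => q ∣ y0)) ≤ 4 ^ k * g :=
      (GG_union_le hEp (hGp y0)).trans
        (mul_le_mul_of_nonneg_right (GG_le_pow hEp) (by linarith))
    have h8' : 1 ≤ GG (E ∪ S.filter (fun q => q ∣ y0)) := one_le_GG (fun p hp => by
      rcases Finset.mem_union.1 hp with hp | hp
      · exact hEp p hp
      · exact hGp y0 p hp)
    have hTk : T.card ≤ k := Finset.card_le_card hT
    have h9 : (n : ℝ) / 2 ^ (k + 1) ≤ ((n / 2 ^ T.card : ℕ) : ℝ) := by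
      have h10 : 2 ^ T.card ≤ n := (Nat.pow_le_pow_right (by norm_num) hTk).trans hn
      have h11 : 1 ≤ n / 2 ^ T.card := (Nat.one_le_div_iff (by positivity)).2 h10
      have h12 : n < 2 ^ T.card * (n / 2 ^ T.card + 1) := Nat.lt_mul_div_succ n (by positivity)
      have h13 : n ≤ 2 ^ (k + 1) * (n / 2 ^ T.card) := by
        calc n ≤ 2 ^ T.card * (n / 2 ^ T.card + 1) := h12.le
          _ ≤ 2 ^ T.card * (n / 2 ^ T.card + n / 2 ^ T.card) := by gcongr
          _ = 2 ^ (T.card + 1) * (n / 2 ^ T.card) := by ring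
          _ ≤ 2 ^ (k + 1) * (n / 2 ^ T.card) := by gcongr; norm_num
      rw [div_le_iff₀ (by positivity)]
      have h14 : (n : ℝ) ≤ 2 ^ (k + 1) * ((n / 2 ^ T.card : ℕ) : ℝ) := by exact_mod_cast h13
      linarith
    have h15 : ((Th K n).filter (fun I => tr E I = T ∧ ∀ p, Prime p → p ∣ I → ¬ p ∣ y0)).card
        ≤ ((Th K n).filter
          (fun I => tr E I = T ∧ ∃ y ∈ Y, ∀ p, Prime p → p ∣ I → ¬ p ∣ y)).card := by
      refine Finset.card_le_card fun I hI => ?_
      rw [Finset.mem_filter] at hI ⊢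
      exact ⟨hI.1, hI.2.1, y0, hy0, hI.2.2⟩
    have h16 : (JS (E ∪ S.filter (fun q => q ∣ y0)) (n / 2 ^ T.card) : ℝ) ≤ (((Th K n).filter
      (fun I => tr E I = T ∧ ∃ y ∈ Y, ∀ p, Prime p → p ∣ I → ¬ p ∣ y)).card : ℝ) := by
      exact_mod_cast h6.trans h15
    refine le_trans ?_ (h7.trans h16)
    have e1 : c5 * n / g ^ 2 = c' * (n / 2 ^ (k + 1)) / (4 ^ k * g) ^ 2 := by
      have : (16:ℝ) ^ k = (4 ^ k) ^ 2 := by rw [← pow_mul, mul_comm, pow_mul]; norm_num
      rw [hc5, this]; field_simp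
    rw [e1]
    refine div_le_div₀ (by positivity) (mul_le_mul_of_nonneg_left h9 hc'.le) (by positivity) ?_
    exact pow_le_pow_left₀ (by linarith) h8 2
  -- conclusion
  by_contra hcon
  rw [not_lt] at hcon
  have h17 : c5 * n / g ^ 2 ≤ Y.card := hlo.trans (by exact_mod_cast hcon)
  set u := g ^ 2 with hu
  have hu0 : 0 < u := by positivity
  have h18 : c5 * n ≤ Y.card * u := (div_le_iff₀ hu0).1 h17
  have h19 : c5 * n * u ≤ C4 * n := by
    calc c5 * n * u ≤ (Y.card * u) * u := mul_le_mul_of_nonneg_right h18 hu0.le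
      _ = Y.card * u ^ 2 := by ring
      _ ≤ _ := hup
  have h20 : c5 * u ≤ C4 := by
    have : (c5 * u) * n ≤ C4 * n := by linarith
    exact le_of_mul_le_mul_right this hn0
  have h21 : c5 ^ 2 * n ≤ C4 * Y.card := by
    calc c5 ^ 2 * n = c5 * (c5 * n) := by ring
      _ ≤ c5 * (Y.card * u) := mul_le_mul_of_nonneg_left h18 hc50.le
      _ = (c5 * u) * Y.card := by ring
      _ ≤ C4 * Y.card := mul_le_mul_of_nonneg_right h20 (Nat.cast_nonneg _)
  have h22 : C4 * Y.card ≤ c5 ^ 2 / 2 * n := by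
    calc C4 * (Y.card : ℝ) ≤ C4 * (c5 ^ 2 / (2 * C4) * n) :=
          mul_le_mul_of_nonneg_left hYδ (by linarith)
      _ = _ := by field_simp
  have h23 : 0 < c5 ^ 2 * n := by positivity
  linarith

end

end Pool.Agent.Helper3.CF
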